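import Pool.Agent.Work.MP_768e99_linear.Interface

/-!
# Block CDSP (helper55): disjoint connected dominating sets, iteration of the layers
-/

set_option autoImplicit false

namespace Pool.Agent.Work.MP_768e99_linear

open Pool.Agent.Work.MP_768e99_co Pool.Agent.Work.MP_768e99_pocket

theorem CDSP : L_CDSP := by
  classical
  intro hsample hdom hlayer hZ1 V _ G e r lam he hr hV hconn hcard
  obtain ⟨f, hrob, hsize⟩ := hsample V G e lam (rob r lam) he hV hconn hcard
  have hVne : Nonempty V := by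
    rw [← Fintype.card_pos_iff]
    omega
  -- the states of the construction
  let St : ℕ → (Fin r → Set V) → Prop := fun j Z =>
    (∀ i, Z i ⊆ {v | (f v : ℕ) < (j + 1) * (lam + 1)}) ∧
      (∀ i i', i ≠ i' → Disjoint (Z i) (Z i')) ∧ ∀ i, Dom G (Z i)
  have hinit : ∃ Z, St 0 Z := by
    obtain ⟨Z, h1, h2, h3⟩ := hdom V G r lam (Zset lam 0 lam f) hr hV (hrob 0 (by omega))
    refine ⟨Z, ?_, h2, h3⟩
    intro i v hv
    have h4 := h1 i hv
    simp only [Zset, Set.mem_ofPred_eq] at h4 ⊢
    omega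
  have hstep : ∀ j Z, St j Z → ∃ Z', St (j + 1) Z' ∧ (∀ i, Z i ⊆ Z' i) ∧
      (j < lam → ∀ i D, Closed G (Z i) D → Conn G D →
        ∃ c : Finset V, (c : Set V) ⊆ Z' i ∧ Connector G (Z i) D c) := by
    rintro j Z ⟨h1, h2, h3⟩
    have hmul : (j + 1 + 1) * (lam + 1) = (j + 1) * (lam + 1) + lam + 1 := by ring
    by_cases hj : j < lam
    · obtain ⟨Z', g1, g2, g3, g4⟩ := hlayer V G r lam (Zset lam (j + 1) lam f) Z hr hV
        (hrob (j + 1) (by omega)) h3 (by
          intro i
          rw [Set.disjoint_left]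
          intro v hv hv'
          have h4 := h1 i hv
          simp only [Zset, Set.mem_ofPred_eq] at h4 hv'
          omega) h2
      refine ⟨Z', ⟨?_, g3, ?_⟩, g1, fun _ => g4⟩
      · intro i v hv
        rcases g2 i hv with h4 | h4
        · have h5 := h1 i h4
          simp only [Set.mem_ofPred_eq] at h5 ⊢
          omega
        · simp only [Zset, Set.mem_ofPred_eq] at h4 ⊢
          omega
      · intro i v
        obtain ⟨z, hz, hvz⟩ := h3 i v
        exact ⟨z, g1 i hz, hvz⟩
    · refine ⟨Z, ⟨?_, h2, h3⟩, fun _ => subset_rfl, fun h => absurd h hj⟩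
      intro i v hv
      have h5 := h1 i hv
      simp only [Set.mem_ofPred_eq] at h5 ⊢
      omega
  obtain ⟨Z0, hZ0⟩ := hinit
  choose F hF using hstep
  -- the sequence of states
  let seq : (j : ℕ) → {Z : Fin r → Set V // St j Z} := fun j =>
    Nat.rec (motive := fun j => {Z : Fin r → Set V // St j Z}) ⟨Z0, hZ0⟩
      (fun j S => ⟨F j S.1 S.2, (hF j S.1 S.2).1⟩) j
  have hmono : ∀ j i, (seq j).1 i ⊆ (seq (j + 1)).1 i := fun j => (hF j _ (seq j).2).2.1
  have hconnect : ∀ j, j < lam → ∀ i D, Closed G ((seq j).1 i) D → Conn G D →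
      ∃ c : Finset V, (c : Set V) ⊆ (seq (j + 1)).1 i ∧ Connector G ((seq j).1 i) D c :=
    fun j => (hF j _ (seq j).2).2.2
  refine ⟨(seq lam).1, ?_, (seq lam).2.2.2, (seq lam).2.2.1, ?_⟩
  · intro i
    exact hZ1 V G lam (fun j => (seq j).1 i) hV hVne (fun j => hmono j i)
      ((seq 0).2.2.2 i) (fun j hj D => hconnect j hj i D)
  · refine le_trans (Nat.mul_le_mul_left _ (Set.ncard_le_ncard ?_ (Set.toFinite _))) hsize
    rintro v ⟨i, hi⟩
    exact (seq lam).2.1 i hi

end Pool.Agent.Work.MP_768e99_linear
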