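import Pool.Agent.Work.MP_768e99_linear.Interface

/-!
# Block CW: connectors inside a robust set
-/

set_option autoImplicit false

namespace Pool.Agent.Work.MP_768e99_linear

open Pool.Agent.Work.MP_768e99_co Pool.Agent.Work.MP_768e99_pocket

theorem CW : L_CW := by
  classical
  intro V _ G x W Z D hrob hdom hZW hcl
  obtain ⟨hDZ, hDne, hDZne, hclosed⟩ := hcl
  set P : Finset (Finset V) → Prop := fun F =>
    (∀ c ∈ F, Connector G Z D c ∧ (c : Set V) ⊆ W) ∧
      (∀ c ∈ F, ∀ c' ∈ F, c ≠ c' → Disjoint c c') with hP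
  obtain ⟨F, hF, hmax⟩ := Finset.exists_max_image
    ((Finset.univ : Finset (Finset (Finset V))).filter P) Finset.card
    ⟨∅, by simp [hP]⟩
  rw [Finset.mem_filter] at hF
  obtain ⟨-, hF1, hF2⟩ := hF
  refine ⟨F, hF1, hF2, ?_⟩
  by_contra hcon
  push Not at hcon
  set U : Finset V := F.biUnion id with hU
  have hUcard : U.card ≤ x := by
    calc U.card ≤ ∑ c ∈ F, (id c).card := Finset.card_biUnion_le
      _ ≤ ∑ _c ∈ F, 2 := Finset.sum_le_sum fun c hc => (hF1 c hc).1.2.1
      _ = 2 * F.card := by rw [Finset.sum_const, smul_eq_mul, mul_comm]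
      _ ≤ x := hcon
  -- no connector in `W` is disjoint from `U`
  have hno : ∀ c : Finset V, c.Nonempty → Connector G Z D c → (∀ v ∈ c, v ∈ W ∧ v ∉ U) →
      False := by
    intro c hcne hc hcU
    have hcF : c ∉ F := by
      intro h
      obtain ⟨v, hv⟩ := hcne
      exact (hcU v hv).2 (by rw [hU, Finset.mem_biUnion]; exact ⟨c, h, hv⟩)
    have hdis : ∀ c' ∈ F, Disjoint c c' := by
      intro c' hc'
      rw [Finset.disjoint_left]
      intro v hv hv'
      exact (hcU v hv).2 (by rw [hU, Finset.mem_biUnion]; exact ⟨c', hc', hv'⟩)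
    have hPc : P (insert c F) := by
      refine ⟨?_, ?_⟩
      · intro c' hc'
        rw [Finset.mem_insert] at hc'
        rcases hc' with rfl | hc'
        · exact ⟨hc, fun v hv => (hcU v hv).1⟩
        · exact hF1 c' hc'
      · intro c₁ h₁ c₂ h₂ hne
        rw [Finset.mem_insert] at h₁ h₂
        rcases h₁ with rfl | h₁
        · rcases h₂ with rfl | h₂
          · exact absurd rfl hne
          · exact hdis c₂ h₂
        · rcases h₂ with rfl | h₂
          · exact (hdis c₁ h₁).symm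
          · exact hF2 c₁ h₁ c₂ h₂ hne
    have h := hmax (insert c F) (by rw [Finset.mem_filter]; exact ⟨Finset.mem_univ _, hPc⟩)
    rw [Finset.card_insert_of_notMem hcF] at h
    omega
  have hWZ : ∀ v ∈ W, v ∉ Z := fun v hv hvZ => Set.disjoint_left.1 hZW hvZ hv
  obtain ⟨hconn, hWdom⟩ := hrob U hUcard
  have hone : ∀ w ∈ W \ (U : Set V), (∃ d ∈ D, G.Adj d w) → ∀ z ∈ Z, z ∉ D → ¬ G.Adj w z := by
    rintro w ⟨hwW, hwU⟩ hd z hz hzD hadj
    refine hno {w} (Finset.singleton_nonempty w) ⟨?_, by simp, ?_⟩ ?_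
    · intro v hv
      rw [Finset.mem_singleton] at hv
      rw [hv]; exact hWZ w hwW
    · exact ⟨w, Finset.mem_singleton_self w, w, Finset.mem_singleton_self w, Or.inl rfl, hd,
        z, hz, hzD, hadj⟩
    · intro v hv
      rw [Finset.mem_singleton] at hv
      rw [hv]; exact ⟨hwW, hwU⟩
  have hall := hconn.2 {w | w ∈ W \ (U : Set V) ∧ ∃ d ∈ D, G.Adj d w} (fun w hw => hw.1) (by
      obtain ⟨d, hd⟩ := hDne
      obtain ⟨w, hw, hdw⟩ := hWdom d
      exact ⟨w, hw, d, hd, hdw⟩) (by
      rintro w ⟨hw, hdw⟩ w' hw' hadj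
      refine ⟨hw', ?_⟩
      obtain ⟨z, hz, hwz⟩ := hdom w'
      by_cases hzD : z ∈ D
      · exact ⟨z, hzD, hwz.symm⟩
      · exfalso
        refine hno {w, w'} ⟨w, by simp⟩ ⟨?_, Finset.card_le_two, ?_⟩ ?_
        · intro v hv
          rw [Finset.mem_insert, Finset.mem_singleton] at hv
          rcases hv with rfl | rfl
          · exact hWZ _ hw.1
          · exact hWZ _ hw'.1
        · exact ⟨w, by simp, w', by simp, Or.inr hadj, hdw, z, hz, hzD, hwz⟩
        · intro v hv
          rw [Finset.mem_insert, Finset.mem_singleton] at hv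
          rcases hv with rfl | rfl
          · exact hw
          · exact hw')
  obtain ⟨z, hz, hzD⟩ : ∃ z ∈ Z, z ∉ D := by
    by_contra h
    push Not at h
    exact hDZne (Set.Subset.antisymm hDZ h)
  obtain ⟨w, hw, hzw⟩ := hWdom z
  exact hone w hw (hall hw).2 z hz hzD hzw.symm

end Pool.Agent.Work.MP_768e99_linear
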