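import Pool.Agent.Work.MP_768e99_linear.Interface

/-!
# Block DOM0 (helper94): random classes give disjoint dominating sets
-/

set_option autoImplicit false

namespace Pool.Agent.Work.MP_768e99_linear

open Pool.Agent.Work.MP_768e99_co Pool.Agent.Work.MP_768e99_pocket

theorem DOM0 : L_DOM0 := by
  classical
  intro hG hN V _ G r lam W hr hcard hrob
  rcases isEmpty_or_nonempty V with hV | ⟨⟨v0⟩⟩
  · exact ⟨fun _ => ∅, fun _ => Set.empty_subset _, fun _ _ _ => Set.disjoint_empty _,
      fun _ v => (hV.false v).elim⟩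
  -- neighbours in `W`
  let A : V → Finset V := fun v => Finset.univ.filter (fun z => z ∈ W ∧ G.Adj v z)
  have hA : ∀ v, rob r lam < (A v).card := by
    intro v
    by_contra hle
    push Not at hle
    obtain ⟨-, h2⟩ := hrob (A v) hle
    obtain ⟨z, hz, hvz⟩ := h2 v
    exact hz.2 (by simp [A, hz.1, hvz])
  have hrV : r < Fintype.card V := by
    have h1 := hA v0
    have h2 := Finset.card_le_univ (A v0)
    have h3 : 1 * r * 1 ≤ rob r lam := by
      unfold rob
      gcongr <;> omega
    omega
  let B : V × Fin r → Finset (V → Fin r) :=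
    fun p => Finset.univ.filter (fun f => ∀ z ∈ A p.1, f z ≠ p.2)
  have hB : ∀ p, (B p).card * 2 ^ (3 * (lam + 1)) ≤ 2 * r ^ Fintype.card V := by
    rintro ⟨v, i⟩
    have h1 := hG V r r 1 V (A v) (fun a => {a}) (fun a f => f a = i)
      (fun a f => Function.update f a i) hr
      (by
        intro a _ b _ hab
        simpa [Finset.disjoint_singleton] using hab)
      (by
        intro a _ f g h hf
        rw [← h a (Finset.mem_singleton_self a)]
        exact hf)
      (by
        intro a _ f
        simp)
      (by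
        intro a _ f v hv
        exact Function.update_of_ne (by simpa using hv) _ _)
      (by
        intro a _ g
        have : {f : V → Fin r | Function.update f a i = g}.ncard ≤
            ((Finset.univ : Finset (Fin r)) : Set (Fin r)).ncard := by
          refine Set.ncard_le_ncard_of_injOn (fun f => f a) (fun _ _ => by simp) ?_
            (Set.toFinite _)
          intro f hf g' hg' hfg
          funext w
          by_cases hw : w = a
          · subst hw
            exact hfg
          · have hfg2 : Function.update f a i = Function.update g' a i := by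
              rw [show Function.update f a i = g from hf, show Function.update g' a i = g from hg']
            have e := congrFun hfg2 w
            simpa [Function.update_of_ne hw] using e
        rw [Set.ncard_coe_finset] at this
        simpa using this)
    have h2 : (B (v, i)).card ≤
        {f : V → Fin r | {a | a ∈ A v ∧ f a = i}.ncard < 1}.ncard := by
      rw [← Set.ncard_coe_finset]
      refine Set.ncard_le_ncard ?_ (Set.toFinite _)
      intro f hf
      rw [Finset.mem_coe, Finset.mem_filter] at hf
      have h3 : {a | a ∈ A v ∧ f a = i} = ∅ := by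
        ext a
        simp only [Set.mem_ofPred_eq, Set.mem_empty_iff_false, iff_false]
        rintro ⟨ha, hfa⟩
        exact hf.2 a ha hfa
      rw [Set.mem_ofPred_eq, h3]
      simp
    have h4 : 3 * (2 * r) * (lam + 1) ≤ (A v).card := by
      have h5 := hA v
      have h6 : 3 * (2 * r) * (lam + 1) ≤ rob r lam := by
        unfold rob
        calc 3 * (2 * r) * (lam + 1) = 6 * r * (lam + 1) := by ring
          _ ≤ 192 * r * (lam + 1) := by gcongr; omega
      omega
    refine hN (2 * r) (lam + 1) (A v).card _ _ (by omega) h4 ?_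
    calc (B (v, i)).card * (2 * r) ^ (A v).card
        ≤ {f : V → Fin r | {a | a ∈ A v ∧ f a = i}.ncard < 1}.ncard * (2 * r) ^ (A v).card :=
          Nat.mul_le_mul_right _ h2
      _ ≤ 2 ^ 1 * (2 * r - 1) ^ (A v).card * r ^ Fintype.card V := h1
      _ = (2 * r - 1) ^ (A v).card * (2 * r ^ Fintype.card V) := by ring
  -- a good labelling
  obtain ⟨f, hf⟩ : ∃ f : V → Fin r, ∀ p, f ∉ B p := by
    by_contra hcon
    push Not at hcon
    have h1 : (Finset.univ : Finset (V → Fin r)) ⊆ Finset.univ.biUnion B := by
      intro f _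
      obtain ⟨p, hp⟩ := hcon f
      exact Finset.mem_biUnion.2 ⟨p, Finset.mem_univ _, hp⟩
    have h2 := (Finset.card_le_card h1).trans Finset.card_biUnion_le
    rw [Finset.card_univ, Fintype.card_fun, Fintype.card_fin] at h2
    have h3 : r ^ Fintype.card V * 2 ^ (3 * (lam + 1)) ≤
        Fintype.card V * r * (2 * r ^ Fintype.card V) := by
      calc r ^ Fintype.card V * 2 ^ (3 * (lam + 1))
          ≤ (∑ p : V × Fin r, (B p).card) * 2 ^ (3 * (lam + 1)) := Nat.mul_le_mul_right _ h2
        _ = ∑ p : V × Fin r, (B p).card * 2 ^ (3 * (lam + 1)) := by rw [Finset.sum_mul]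
        _ ≤ ∑ _p : V × Fin r, 2 * r ^ Fintype.card V := Finset.sum_le_sum fun p _ => hB p
        _ = _ := by
            rw [Finset.sum_const, Finset.card_univ, smul_eq_mul, Fintype.card_prod,
              Fintype.card_fin]
    have h4 : 0 < r ^ Fintype.card V := Nat.pow_pos hr
    have h5 : 2 ^ (3 * (lam + 1)) ≤ 2 * (Fintype.card V * r) := by
      refine Nat.le_of_mul_le_mul_left ?_ h4
      calc _ ≤ _ := h3
        _ = _ := by ring
    have h6 : Fintype.card V * r < 2 ^ lam * 2 ^ lam := by
      calc Fintype.card V * r ≤ Fintype.card V * Fintype.card V := Nat.mul_le_mul_left _ hrV.le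
        _ < 2 ^ lam * 2 ^ lam := Nat.mul_lt_mul'' hcard hcard
    have h7 : 2 ^ (3 * (lam + 1)) = 8 * (2 ^ lam * (2 ^ lam * 2 ^ lam)) := by
      rw [← pow_add, ← pow_add, show 3 * (lam + 1) = 3 + (lam + (lam + lam)) by ring, pow_add]
      norm_num
    have h8 : 1 ≤ 2 ^ lam := Nat.one_le_two_pow
    have h9 : 1 * (2 ^ lam * 2 ^ lam) ≤ 2 ^ lam * (2 ^ lam * 2 ^ lam) := Nat.mul_le_mul_right _ h8
    omega
  refine ⟨fun i => {v | v ∈ W ∧ f v = i}, fun i v hv => hv.1, fun i j hij => ?_, fun i v => ?_⟩
  · rw [Set.disjoint_left]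
    rintro v ⟨-, h1⟩ ⟨-, h2⟩
    exact hij (h1.symm.trans h2)
  · have h1 := hf (v, i)
    have h2 : ¬ ∀ z ∈ A v, f z ≠ i := fun h => h1 (Finset.mem_filter.2 ⟨Finset.mem_univ _, h⟩)
    push Not at h2
    obtain ⟨z, hz, hzi⟩ := h2
    have hz2 : z ∈ W ∧ G.Adj v z := by simpa [A] using hz
    exact ⟨z, ⟨hz2.1, hzi⟩, hz2.2⟩

end Pool.Agent.Work.MP_768e99_linear
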