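import Pool.Agent.Work.MP_768e99_linear.Interface

/-! # Block GEN: the generating function bound (helper17) -/

set_option autoImplicit false

namespace Pool.Agent.Work.MP_768e99_linear

open Pool.Agent.Work.MP_768e99_co Pool.Agent.Work.MP_768e99_pocket

open Classical in
/-- the number of events of `F` which do not hold -/
noncomputable def genN {V I : Type} {M : ℕ} (P : I → (V → Fin M) → Prop) (F : Finset I)
    (f : V → Fin M) : ℕ := (F.filter (fun i => ¬ P i f)).card

theorem gen_insert {V I : Type} {M : ℕ} [DecidableEq I] (P : I → (V → Fin M) → Prop)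
    (F : Finset I) (i : I) (hi : i ∉ F) (f : V → Fin M) (h : P i f) :
    genN P (insert i F) f = genN P F f := by
  classical
  unfold genN
  rw [Finset.filter_insert, if_neg (not_not.2 h)]

theorem gen_insert' {V I : Type} {M : ℕ} [DecidableEq I] (P : I → (V → Fin M) → Prop)
    (F : Finset I) (i : I) (hi : i ∉ F) (f : V → Fin M) (h : ¬ P i f) :
    genN P (insert i F) f = genN P F f + 1 := by
  classical
  unfold genN
  rw [Finset.filter_insert, if_pos h, Finset.card_insert_of_notMem]
  exact fun h' => hi (Finset.mem_filter.1 h').1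

/-- the main step: the transfer by `T i` -/
theorem gen_transfer {V I : Type} [Fintype V] [DecidableEq V] {M Q : ℕ}
    (P : I → (V → Fin M) → Prop) (F : Finset I) (i : I)
    (T : (V → Fin M) → (V → Fin M)) (hT : ∀ f, P i (T f))
    (hF : ∀ f, genN P F (T f) = genN P F f)
    (hfib : ∀ g, {f | T f = g}.ncard ≤ Q) :
    ∑ f : V → Fin M, 2 ^ genN P F f ≤
      Q * ∑ f : V → Fin M, (open Classical in if P i f then 2 ^ genN P F f else 0) := by
  classical
  calc ∑ f : V → Fin M, 2 ^ genN P F f = ∑ f : V → Fin M, 2 ^ genN P F (T f) :=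
        Finset.sum_congr rfl fun f _ => by rw [hF]
    _ = ∑ g : V → Fin M, ∑ f ∈ Finset.univ.filter (fun f => T f = g), 2 ^ genN P F (T f) := by
        rw [Finset.sum_fiberwise]
    _ ≤ ∑ g : V → Fin M, Q * (if P i g then 2 ^ genN P F g else 0) := by
        refine Finset.sum_le_sum fun g _ => ?_
        have h1 : ∑ f ∈ Finset.univ.filter (fun f => T f = g), 2 ^ genN P F (T f) =
            (Finset.univ.filter (fun f => T f = g)).card * 2 ^ genN P F g := by
          rw [Finset.sum_congr rfl (g := fun _ => 2 ^ genN P F g)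
            (fun f hf => by rw [(Finset.mem_filter.1 hf).2]), Finset.sum_const, smul_eq_mul]
        have h2 : (Finset.univ.filter (fun f => T f = g)).card ≤ Q := by
          refine le_trans (le_of_eq ?_) (hfib g)
          rw [← Set.ncard_coe_finset]
          congr 1
          ext f
          simp
        rw [h1]
        by_cases hg : P i g
        · rw [if_pos hg]
          exact Nat.mul_le_mul_right _ h2
        · have h3 : Finset.univ.filter (fun f => T f = g) = ∅ := by
            rw [Finset.filter_eq_empty_iff]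
            intro f _ hf
            exact hg (hf ▸ hT f)
          rw [h3, Finset.card_empty, zero_mul]
          exact Nat.zero_le _
    _ = Q * ∑ g : V → Fin M, (if P i g then 2 ^ genN P F g else 0) := by
        rw [Finset.mul_sum]

theorem gen_aux {V I : Type} [Fintype V] [DecidableEq V] [DecidableEq I] {M Q : ℕ}
    (F : Finset I) (c : I → Finset V) (P : I → (V → Fin M) → Prop)
    (T : I → (V → Fin M) → (V → Fin M)) (hQ : 1 ≤ Q)
    (hc : ∀ i ∈ F, ∀ j ∈ F, i ≠ j → Disjoint (c i) (c j))
    (hP : ∀ i ∈ F, ∀ f g : V → Fin M, (∀ v ∈ c i, f v = g v) → P i f → P i g)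
    (hT : ∀ i ∈ F, ∀ f, P i (T i f)) (hTc : ∀ i ∈ F, ∀ f, ∀ v, v ∉ c i → T i f v = f v)
    (hfib : ∀ i ∈ F, ∀ g, {f | T i f = g}.ncard ≤ Q) (F' : Finset I) :
    F' ⊆ F → (∑ f : V → Fin M, 2 ^ genN P F' f) * Q ^ F'.card ≤
      (2 * Q - 1) ^ F'.card * M ^ Fintype.card V := by
  classical
  induction F' using Finset.induction_on with
  | empty =>
    intro _
    simp [genN, Finset.sum_const, Finset.card_univ]
  | insert i F' hi ih =>
    intro hsub
    have hiF : i ∈ F := hsub (Finset.mem_insert_self _ _)
    have hF'F : F' ⊆ F := fun j hj => hsub (Finset.mem_insert_of_mem hj)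
    have ih' := ih hF'F
    have hinv : ∀ f, genN P F' (T i f) = genN P F' f := by
      intro f
      unfold genN
      congr 1
      refine Finset.filter_congr fun j hj => ?_
      have hij : i ≠ j := fun h => hi (h ▸ hj)
      have hdis := hc i hiF j (hF'F hj) hij
      have hag : ∀ v ∈ c j, T i f v = f v := fun v hv =>
        hTc i hiF f v fun hv' => (Finset.disjoint_left.1 hdis hv') hv
      exact not_congr ⟨hP j (hF'F hj) _ _ hag, hP j (hF'F hj) _ _ fun v hv => (hag v hv).symm⟩
    have htr := gen_transfer (M := M) (Q := Q) P F' i (T i) (hT i hiF) hinv (hfib i hiF)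
    set S := ∑ f : V → Fin M, 2 ^ genN P F' f with hS
    set A := ∑ f : V → Fin M, (if P i f then 2 ^ genN P F' f else 0) with hA
    have hsum : ∑ f : V → Fin M, 2 ^ genN P (insert i F') f + A = 2 * S := by
      rw [hA, hS, ← Finset.sum_add_distrib, Finset.mul_sum]
      refine Finset.sum_congr rfl fun f _ => ?_
      by_cases h : P i f
      · rw [gen_insert P F' i hi f h, if_pos h]
        ring
      · rw [gen_insert' P F' i hi f h, if_neg h, pow_succ]
        ring
    have key : (∑ f : V → Fin M, 2 ^ genN P (insert i F') f) * Q ≤ (2 * Q - 1) * S := by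
      set B := ∑ f : V → Fin M, 2 ^ genN P (insert i F') f with hB
      have h1 : B * Q + Q * A = 2 * Q * S := by
        have : (B + A) * Q = 2 * S * Q := by rw [hsum]
        nlinarith [this]
      have h2 : (2 * Q - 1) * S + S = 2 * Q * S := by
        have : 2 * Q - 1 + 1 = 2 * Q := by omega
        calc (2 * Q - 1) * S + S = (2 * Q - 1 + 1) * S := by ring
          _ = 2 * Q * S := by rw [this]
      omega
    rw [Finset.card_insert_of_notMem hi, pow_succ, pow_succ]
    calc (∑ f : V → Fin M, 2 ^ genN P (insert i F') f) * (Q ^ F'.card * Q)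
        = (∑ f : V → Fin M, 2 ^ genN P (insert i F') f) * Q * Q ^ F'.card := by ring
      _ ≤ (2 * Q - 1) * S * Q ^ F'.card := Nat.mul_le_mul_right _ key
      _ = (2 * Q - 1) * (S * Q ^ F'.card) := by ring
      _ ≤ (2 * Q - 1) * ((2 * Q - 1) ^ F'.card * M ^ Fintype.card V) :=
          Nat.mul_le_mul_left _ ih'
      _ = (2 * Q - 1) ^ F'.card * (2 * Q - 1) * M ^ Fintype.card V := by ring

theorem GEN : L_GEN := by
  intro V _ _ M Q q I _ F c P T hQ hc hP hT hTc hfib
  classical
  have haux := gen_aux F c P T hQ hc hP hT hTc hfib F (Finset.Subset.refl F)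
  have hbad : {f : V → Fin M | {i | i ∈ F ∧ P i f}.ncard < q}.ncard =
      (Finset.univ.filter (fun f : V → Fin M => {i | i ∈ F ∧ P i f}.ncard < q)).card := by
    rw [← Set.ncard_coe_finset]
    congr 1
    ext f
    simp
  rw [hbad]
  set Bd := Finset.univ.filter (fun f : V → Fin M => {i | i ∈ F ∧ P i f}.ncard < q) with hBd
  have h1 : Bd.card * 2 ^ F.card ≤ 2 ^ q * ∑ f : V → Fin M, 2 ^ genN P F f := by
    calc Bd.card * 2 ^ F.card = ∑ f ∈ Bd, 2 ^ F.card := by
          rw [Finset.sum_const, smul_eq_mul]
      _ ≤ ∑ f ∈ Bd, 2 ^ q * 2 ^ genN P F f := by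
          refine Finset.sum_le_sum fun f hf => ?_
          have hf' := (Finset.mem_filter.1 hf).2
          have hset : {i | i ∈ F ∧ P i f} = ((F.filter (fun i => P i f) : Finset I) : Set I) := by
            ext i
            simp
          rw [hset, Set.ncard_coe_finset] at hf'
          have hcard : (F.filter (fun i => P i f)).card + genN P F f = F.card := by
            unfold genN
            exact Finset.card_filter_add_card_filter_not (s := F) (fun i => P i f)
          rw [← pow_add]
          exact Nat.pow_le_pow_right (by norm_num) (by omega)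
      _ ≤ ∑ f : V → Fin M, 2 ^ q * 2 ^ genN P F f :=
          Finset.sum_le_sum_of_subset (Finset.subset_univ _)
      _ = 2 ^ q * ∑ f : V → Fin M, 2 ^ genN P F f := by rw [Finset.mul_sum]
  calc Bd.card * (2 * Q) ^ F.card = Bd.card * 2 ^ F.card * Q ^ F.card := by
        rw [mul_pow]; ring
    _ ≤ 2 ^ q * (∑ f : V → Fin M, 2 ^ genN P F f) * Q ^ F.card := Nat.mul_le_mul_right _ h1
    _ = 2 ^ q * ((∑ f : V → Fin M, 2 ^ genN P F f) * Q ^ F.card) := by ring
    _ ≤ 2 ^ q * ((2 * Q - 1) ^ F.card * M ^ Fintype.card V) := Nat.mul_le_mul_left _ haux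
    _ = 2 ^ q * (2 * Q - 1) ^ F.card * M ^ Fintype.card V := by ring

end Pool.Agent.Work.MP_768e99_linear
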