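import Pool.Agent.Work.MP_768e99_linear.Interface

set_option autoImplicit false

namespace Pool.Agent.Work.MP_768e99_linear

theorem HALL2 : L_HALL2 := by
  classical
  intro V I hV hI q N hq hN hv
  have : Fintype V := Fintype.ofFinite V
  have : Fintype I := Fintype.ofFinite I
  have hall : ∀ s : Finset I, s.card ≤ (s.biUnion fun i => (N i).toFinset).card := by
    intro s
    have h := Finset.card_mul_le_card_mul (fun (i : I) (v : V) => v ∈ N i) (s := s)
      (t := s.biUnion fun i => (N i).toFinset) (m := q) (n := q) ?_ ?_
    · exact Nat.le_of_mul_le_mul_right h hq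
    · intro i hi
      refine (hN i).trans ?_
      rw [Set.ncard_eq_toFinset_card']
      refine Finset.card_le_card ?_
      intro v hvi
      have hvi' : v ∈ N i := Set.mem_toFinset.1 hvi
      exact (Finset.mem_bipartiteAbove _).2
        ⟨Finset.mem_biUnion.2 ⟨i, hi, Set.mem_toFinset.2 hvi'⟩, hvi'⟩
    · intro v _
      refine le_trans ?_ (hv v)
      rw [Set.ncard_eq_toFinset_card']
      refine Finset.card_le_card ?_
      intro i hi
      exact Set.mem_toFinset.2 ((Finset.mem_bipartiteBelow _).1 hi).2
  obtain ⟨h, hinj, hmem⟩ :=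
    (Finset.all_card_le_biUnion_card_iff_exists_injective fun i => (N i).toFinset).1 hall
  exact ⟨h, hinj, fun i => Set.mem_toFinset.1 (hmem i)⟩

end Pool.Agent.Work.MP_768e99_linear
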