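import Pool.Agent.Work.MP_768e99_linear.Interface

/-!
# Block K1X: connectors avoiding a set `X`
-/

set_option autoImplicit false

namespace Pool.Agent.Work.MP_768e99_linear

open Pool.Agent.Work.MP_768e99_co Pool.Agent.Work.MP_768e99_pocket

theorem K1X : L_K1X := by
  classical
  intro V _ G k Z D X hk hdom hZX hcl
  obtain ⟨hDZ, hDne, hDZne, hclosed⟩ := hcl
  set P : Finset (Finset V) → Prop := fun F =>
    (∀ c ∈ F, Connector G Z D c ∧ Disjoint c X) ∧
      (∀ c ∈ F, ∀ c' ∈ F, c ≠ c' → Disjoint c c') with hP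
  obtain ⟨F, hF, hmax⟩ := Finset.exists_max_image
    ((Finset.univ : Finset (Finset (Finset V))).filter P) Finset.card
    ⟨∅, by simp [hP]⟩
  rw [Finset.mem_filter] at hF
  obtain ⟨-, hF1, hF2⟩ := hF
  refine ⟨F, hF1, hF2, ?_⟩
  by_contra hcon
  push Not at hcon
  set U : Finset V := F.biUnion id with hU
  have hUcard : U.card ≤ 2 * F.card := by
    calc U.card ≤ ∑ c ∈ F, (id c).card := Finset.card_biUnion_le
      _ ≤ ∑ _c ∈ F, 2 := Finset.sum_le_sum fun c hc => (hF1 c hc).1.2.1
      _ = 2 * F.card := by rw [Finset.sum_const, smul_eq_mul, mul_comm]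
  have hUZ : ∀ v ∈ U, v ∉ Z := by
    intro v hv
    rw [hU, Finset.mem_biUnion] at hv
    obtain ⟨c, hc, hvc⟩ := hv
    exact (hF1 c hc).1.1 v hvc
  have hXZ : ∀ v ∈ X, v ∉ Z := by
    intro v hv hvZ
    exact (Set.disjoint_left.mp hZX hvZ) (by exact_mod_cast hv)
  -- no connector is disjoint from `U` and `X`
  have hno : ∀ c : Finset V, c.Nonempty → Connector G Z D c → (∀ v ∈ c, v ∉ U ∧ v ∉ X) →
      False := by
    intro c hcne hc hcU
    have hcF : c ∉ F := by
      intro h
      obtain ⟨v, hv⟩ := hcne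
      exact (hcU v hv).1 (by rw [hU, Finset.mem_biUnion]; exact ⟨c, h, hv⟩)
    have hdis : ∀ c' ∈ F, Disjoint c c' := by
      intro c' hc'
      rw [Finset.disjoint_left]
      intro v hv hv'
      exact (hcU v hv).1 (by rw [hU, Finset.mem_biUnion]; exact ⟨c', hc', hv'⟩)
    have hPc : P (insert c F) := by
      refine ⟨?_, ?_⟩
      · intro c' hc'
        rw [Finset.mem_insert] at hc'
        rcases hc' with rfl | hc'
        · refine ⟨hc, ?_⟩
          rw [Finset.disjoint_left]
          intro v hv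
          exact (hcU v hv).2
        · exact hF1 c' hc'
      · intro c₁ h₁ c₂ h₂ hne
        rw [Finset.mem_insert] at h₁ h₂
        rcases h₁ with rfl | h₁
        · rcases h₂ with rfl | h₂
          · exact absurd rfl hne
          · exact hdis c₂ h₂
        · rcases h₂ with rfl | h₂
          · exact (hdis c₁ h₁).symm
          · exact hF2 c₁ h₁ c₂ h₂ hne
    have h := hmax (insert c F) (by rw [Finset.mem_filter]; exact ⟨Finset.mem_univ _, hPc⟩)
    rw [Finset.card_insert_of_notMem hcF] at h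
    omega
  -- the set `A`
  set A : Finset V := Finset.univ.filter fun v =>
    v ∈ D ∨ (v ∉ Z ∧ v ∉ U ∧ v ∉ X ∧ ∃ x ∈ D, G.Adj x v) with hA
  have hmemA : ∀ v, v ∈ A ↔ v ∈ D ∨ (v ∉ Z ∧ v ∉ U ∧ v ∉ X ∧ ∃ x ∈ D, G.Adj x v) := by
    intro v; simp [hA]
  have hnb : ∀ v ∈ nb G A, v ∈ U ∪ X := by
    intro v hv
    rw [mem_nb] at hv
    obtain ⟨hvA, a, haA, hav⟩ := hv
    by_contra hvY
    rw [Finset.mem_union, not_or] at hvY
    rw [hmemA, not_or] at hvA
    obtain ⟨hvD, hvA⟩ := hvA
    rw [hmemA] at haA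
    by_cases hvZ : v ∈ Z
    · rcases haA with haD | ⟨haZ, haU, haX, x, hx, hxa⟩
      · exact hvD (hclosed a haD v hvZ hav)
      · refine hno {a} (Finset.singleton_nonempty a) ⟨?_, ?_, ?_⟩ ?_
        · intro w hw
          rw [Finset.mem_singleton] at hw
          rw [hw]; exact haZ
        · simp
        · exact ⟨a, Finset.mem_singleton_self a, a, Finset.mem_singleton_self a, Or.inl rfl,
            ⟨x, hx, hxa⟩, v, hvZ, hvD, hav⟩
        · intro w hw
          rw [Finset.mem_singleton] at hw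
          rw [hw]; exact ⟨haU, haX⟩
    · have hnoD : ∀ x ∈ D, ¬ G.Adj x v := by
        intro x hx hxv
        exact hvA ⟨hvZ, hvY.1, hvY.2, x, hx, hxv⟩
      rcases haA with haD | ⟨haZ, haU, haX, x, hx, hxa⟩
      · exact hnoD a haD hav
      · obtain ⟨z, hz, hvz⟩ := hdom v
        have hzD : z ∉ D := fun h => hnoD z h hvz.symm
        refine hno {a, v} ⟨a, by simp⟩ ⟨?_, Finset.card_le_two, ?_⟩ ?_
        · intro w hw
          rw [Finset.mem_insert, Finset.mem_singleton] at hw
          rcases hw with rfl | rfl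
          · exact haZ
          · exact hvZ
        · exact ⟨a, by simp, v, by simp, Or.inr hav, ⟨x, hx, hxa⟩, z, hz, hzD, hvz⟩
        · intro w hw
          rw [Finset.mem_insert, Finset.mem_singleton] at hw
          rcases hw with rfl | rfl
          · exact ⟨haU, haX⟩
          · exact hvY
  have hAne : A.Nonempty := by
    obtain ⟨x, hx⟩ := hDne
    exact ⟨x, (hmemA x).mpr (Or.inl hx)⟩
  obtain ⟨b, hbZ, hbD⟩ : ∃ b, b ∈ Z ∧ b ∉ D := by
    by_contra h
    push Not at h
    exact hDZne (Set.Subset.antisymm hDZ h)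
  have hbA : b ∉ A := by
    rw [hmemA, not_or]
    exact ⟨hbD, fun h => h.1 hbZ⟩
  have hbnb : b ∉ nb G A := by
    intro h
    have := hnb b h
    rw [Finset.mem_union] at this
    rcases this with h | h
    · exact hUZ b h hbZ
    · exact hXZ b h hbZ
  have h1 := hk A hAne ⟨b, hbA, hbnb⟩
  have h2 : (nb G A).card ≤ (U ∪ X).card := Finset.card_le_card hnb
  have h3 := Finset.card_union_le U X
  omega

end Pool.Agent.Work.MP_768e99_linear
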