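import Pool.Agent.Work.MP_768e99_linear.Interface

set_option autoImplicit false

namespace Pool.Agent.Work.MP_768e99_linear

open Pool.Agent.Work.MP_768e99_co Pool.Agent.Work.MP_768e99_pocket

/-- Components are unique. -/
lemma comp_sub {V : Type} {G : SimpleGraph V} {Z D D' : Set V} {v : V} (h : Closed G Z D)
    (hc : Conn G D) (h' : Closed G Z D') (hv : v ∈ D) (hv' : v ∈ D') : D ⊆ D' := by
  have := hc.2 (D ∩ D') Set.inter_subset_left ⟨v, hv, hv'⟩ (by
    rintro x ⟨hx, hx'⟩ y hy hxy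
    exact ⟨hy, h'.2.2.2 x hx' y (h.1 hy) hxy⟩)
  exact fun x hx => (this hx).2

theorem LAYER : L_LAYER := by
  classical
  intro hGEN hN3 hCW hSPL hLG1 hLG2 hQB hH V _ G r lam W Z hr hlam hW hdom hWZ hZZ
  let P : Type := {p : Fin r × Set V // Closed G (Z p.1) p.2 ∧ Conn G p.2}
  haveI : Fintype P := Fintype.ofFinite P
  have huniq : ∀ p p' : P, ∀ v, p.1.1 = p'.1.1 → v ∈ p.1.2 → v ∈ p'.1.2 → p = p' := by
    rintro ⟨⟨i, D⟩, h1, h2⟩ ⟨⟨i', D'⟩, h1', h2'⟩ v hi hv hv'
    simp only at hi hv hv' h1 h1' h2 h2'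
    subst hi
    have : D = D' := Set.Subset.antisymm (comp_sub h1 h2 h1' hv hv') (comp_sub h1' h2' h1 hv' hv)
    subst this
    rfl
  -- the number of components
  have hrep : ∀ p : P, ∃ v, v ∈ p.1.2 := fun p => p.2.2.1
  choose rep hrep using hrep
  have hrep_inj : Function.Injective rep := by
    intro p p' h
    have h1 : rep p ∈ Z p.1.1 := p.2.1.1 (hrep p)
    have h2 : rep p ∈ Z p'.1.1 := by rw [h]; exact p'.2.1.1 (hrep p')
    have h3 : p.1.1 = p'.1.1 := by
      by_contra hne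
      exact Set.disjoint_left.1 (hZZ _ _ hne) h1 h2
    exact huniq p p' (rep p) h3 (hrep p) (by rw [h]; exact hrep p')
  have hPcard : Fintype.card P ≤ Fintype.card V := Fintype.card_le_of_injective rep hrep_inj
  -- the data
  have hdata : ∀ p : P, ∃ (t : Bool) (A : Finset V) (b : V → V), rob r lam < 4 * A.card ∧
      (t = false → ∀ a ∈ A, One G W (Z p.1.1) p.1.2 a) ∧
      (t = true → Set.InjOn b A ∧ (∀ a ∈ A, ∀ a' ∈ A, b a ≠ a') ∧
        ∀ a ∈ A, Two G W (Z p.1.1) p.1.2 a (b a)) := by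
    intro p
    rcases hSPL hCW V G (rob r lam) W (Z p.1.1) p.1.2 hW (hdom _) (hWZ _) p.2.1 with
      ⟨A, h1, h2⟩ | ⟨A, b, h1, h2, h3, h4⟩
    · exact ⟨false, A, id, h1, fun _ => h2, fun h => absurd h (by simp)⟩
    · exact ⟨true, A, b, h1, fun h => absurd h (by simp), fun _ => ⟨h2, h3, h4⟩⟩
  choose t A b hA hOne hTwo using hdata
  have hAuniq : ∀ p p' : P, ∀ a, t p = true → t p' = true → p.1.1 = p'.1.1 → a ∈ A p →
      a ∈ A p' → p = p' := by
    intro p p' a ht ht' hi ha ha'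
    have h1 := (hTwo p ht).2.2 a ha
    have h2 := (hTwo p' ht').2.2 a ha'
    obtain ⟨d, hd, hda⟩ := h2.2.2.1
    have hdD : d ∈ p.1.2 := by
      by_contra hcon
      refine h1.2.2.2.1 d ?_ hcon hda.symm
      rw [hi]; exact p'.2.1.1 hd
    exact huniq p p' d hi hdD hd
  let bo : V → Fin r → Option V := fun a i =>
    if h : ∃ p : P, t p = true ∧ p.1.1 = i ∧ a ∈ A p then some (b h.choose a) else none
  have hbo : ∀ (a : V) (p : P), t p = true → a ∈ A p → bo a p.1.1 = some (b p a) := by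
    intro a p ht ha
    have h : ∃ p' : P, t p' = true ∧ p'.1.1 = p.1.1 ∧ a ∈ A p' := ⟨p, ht, rfl, ha⟩
    have h1 : bo a p.1.1 = some (b h.choose a) := dif_pos h
    rw [h1]
    have h2 := h.choose_spec
    rw [hAuniq _ _ a h2.1 ht h2.2.1 h2.2.2 ha]
  let N : P → (V → Fin (2 * r)) → Set V := fun p g =>
    {a | a ∈ A p ∧ r ≤ (g a : ℕ) ∧ (g (b p a) : ℕ) = p.1.1}
  let bad : P → Set (V → Fin (2 * r)) := fun p =>
    {g | (t p = false ∧ ∀ a ∈ A p, (g a : ℕ) ≠ p.1.1) ∨
      (t p = true ∧ (N p g).ncard < 3 * (lam + 1))}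
  let bad3 : V → Set (V → Fin (2 * r)) := fun a =>
    {g | 3 * (lam + 1) ≤ {i : Fin r | ∃ v, bo a i = some v ∧ (g v : ℕ) = i}.ncard}
  have hbad : ∀ p, (bad p).ncard * 2 ^ (3 * (lam + 1)) ≤ (2 * r) ^ Fintype.card V := by
    intro p
    by_cases ht : t p = true
    · have : bad p = {g | (N p g).ncard < 3 * (lam + 1)} := by
        ext g
        simp only [bad, Set.mem_ofPred_eq, ht]
        simp
      rw [this]
      exact hLG2 hGEN hN3 V r lam (A p) (b p) p.1.1 (hA p) (hTwo p ht).1 (hTwo p ht).2.1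
    · have ht' : t p = false := by simpa using ht
      have : bad p = {g | ∀ a ∈ A p, (g a : ℕ) ≠ p.1.1} := by
        ext g
        simp only [bad, Set.mem_ofPred_eq, ht']
        simp
      rw [this]
      exact hLG1 hGEN hN3 V r lam (A p) p.1.1 (hA p)
  have hbad3 : ∀ a, (bad3 a).ncard * 2 ^ (3 * (lam + 1)) ≤ (2 * r) ^ Fintype.card V := by
    intro a
    exact hQB V r (3 * (lam + 1)) (bo a) hr
  -- a good labelling
  obtain ⟨g, hg1, hg3⟩ : ∃ g : V → Fin (2 * r), (∀ p, g ∉ bad p) ∧ ∀ a, g ∉ bad3 a := by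
    by_contra hcon
    push Not at hcon
    have hcov : (Set.univ : Set (V → Fin (2 * r))) ⊆ (⋃ p, bad p) ∪ ⋃ a, bad3 a := by
      intro g _
      by_cases h : ∃ p, g ∈ bad p
      · exact Or.inl (Set.mem_iUnion.2 h)
      · push Not at h
        exact Or.inr (Set.mem_iUnion.2 (hcon g h))
    have h1 : (Set.univ : Set (V → Fin (2 * r))).ncard = (2 * r) ^ Fintype.card V := by
      rw [Set.ncard_univ, Nat.card_eq_fintype_card, Fintype.card_fun, Fintype.card_fin]
    have h2 : (2 * r) ^ Fintype.card V ≤ ∑ p, (bad p).ncard + ∑ a, (bad3 a).ncard := by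
      rw [← h1]
      refine (Set.ncard_le_ncard hcov (Set.toFinite _)).trans
        ((Set.ncard_union_le _ _).trans (Nat.add_le_add ?_ ?_))
      · exact Set.ncard_iUnion_le_of_fintype _
      · exact Set.ncard_iUnion_le_of_fintype _
    have h3 : (∑ p, (bad p).ncard + ∑ a, (bad3 a).ncard) * 2 ^ (3 * (lam + 1)) ≤
        (Fintype.card V + Fintype.card V) * (2 * r) ^ Fintype.card V := by
      rw [add_mul, add_mul, Finset.sum_mul, Finset.sum_mul]
      refine Nat.add_le_add ?_ ?_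
      · refine (Finset.sum_le_sum fun p _ => hbad p).trans ?_
        rw [Finset.sum_const, Finset.card_univ, smul_eq_mul]
        exact Nat.mul_le_mul_right _ hPcard
      · refine (Finset.sum_le_sum fun p _ => hbad3 p).trans ?_
        rw [Finset.sum_const, Finset.card_univ, smul_eq_mul]
    have hpos : 0 < (2 * r) ^ Fintype.card V := by positivity
    have h4 : 2 ^ (3 * (lam + 1)) ≤ Fintype.card V + Fintype.card V := by
      have := (Nat.mul_le_mul_right (2 ^ (3 * (lam + 1))) h2).trans h3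
      rw [mul_comm] at this
      exact Nat.le_of_mul_le_mul_right this hpos
    have h5 : 2 * 2 ^ lam ≤ 2 ^ (3 * (lam + 1)) := by
      rw [← pow_succ']
      exact Nat.pow_le_pow_right (by norm_num) (by omega)
    omega
  -- Hall
  let I : Type := {p : P // t p = true}
  obtain ⟨h, hinj, hmem⟩ := hH V I (3 * (lam + 1)) (fun p => N p.1 g) (by omega) (by
    rintro ⟨p, hp⟩
    by_contra hcon
    push Not at hcon
    exact hg1 p (Or.inr ⟨hp, hcon⟩)) (by
    intro a
    have h1 := hg3 a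
    simp only [bad3, Set.mem_ofPred_eq, not_le] at h1
    refine le_trans ?_ h1.le
    refine Set.ncard_le_ncard_of_injOn (fun p : I => p.1.1.1) ?_ ?_ (Set.toFinite _)
    · rintro ⟨p, hp⟩ hpa
      exact ⟨b p a, hbo a p hp hpa.1, hpa.2.2⟩
    · rintro ⟨p, hp⟩ hpa ⟨p', hp'⟩ hpa' heq
      exact Subtype.ext (hAuniq p p' a hp hp' heq hpa.1 hpa'.1))
  have hhW : ∀ p : I, h p ∈ W := fun p => ((hTwo p.1 p.2).2.2 _ (hmem p).1).1
  refine ⟨fun i => Z i ∪ {v | v ∈ W ∧ (g v : ℕ) = i} ∪ {v | ∃ p : I, p.1.1.1 = i ∧ h p = v},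
    ?_, ?_, ?_, ?_⟩
  · intro i v hv
    exact Or.inl (Or.inl hv)
  · rintro i v ((hv | hv) | ⟨p, -, rfl⟩)
    · exact Or.inl hv
    · exact Or.inr hv.1
    · exact Or.inr (hhW p)
  · intro i j hij
    rw [Set.disjoint_left]
    rintro v ((hv | ⟨hv, hgv⟩) | ⟨p, hp, rfl⟩) ((hv' | ⟨hv', hgv'⟩) | ⟨p', hp', hpp⟩)
    · exact Set.disjoint_left.1 (hZZ i j hij) hv hv'
    · exact Set.disjoint_left.1 (hWZ i) hv hv'
    · exact Set.disjoint_left.1 (hWZ i) hv (hpp ▸ hhW p')
    · exact Set.disjoint_left.1 (hWZ j) hv' hv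
    · exact hij (Fin.ext (hgv.symm.trans hgv'))
    · have h1 := (hmem p').2.1
      rw [hpp] at h1
      have := i.2
      omega
    · exact Set.disjoint_left.1 (hWZ j) hv' (hhW p)
    · have h1 := (hmem p).2.1
      have := j.2
      omega
    · apply hij
      rw [← hp, ← hp', hinj hpp]
  · intro i D hcl hcn
    let p : P := ⟨(i, D), hcl, hcn⟩
    by_cases ht : t p = true
    · let q : I := ⟨p, ht⟩
      have h1 := hmem q
      have h2 := (hTwo p ht).2.2 (h q) h1.1
      refine ⟨{h q, b p (h q)}, ?_, ?_, ?_, ?_⟩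
      · intro v hv
        simp only [Finset.coe_insert, Finset.coe_singleton, Set.mem_insert_iff,
          Set.mem_singleton_iff] at hv
        rcases hv with rfl | rfl
        · exact Or.inr ⟨q, rfl, rfl⟩
        · exact Or.inl (Or.inr ⟨h2.2.1, h1.2.2⟩)
      · intro v hv hvZ
        simp only [Finset.mem_insert, Finset.mem_singleton] at hv
        rcases hv with rfl | rfl
        · exact Set.disjoint_left.1 (hWZ i) hvZ h2.1
        · exact Set.disjoint_left.1 (hWZ i) hvZ h2.2.1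
      · exact Finset.card_le_two
      · refine ⟨h q, by simp, b p (h q), by simp, Or.inr h2.2.2.2.2.1, h2.2.2.1, ?_⟩
        obtain ⟨z, hz, hzD, hadj⟩ := h2.2.2.2.2.2
        exact ⟨z, hz, hzD, hadj⟩
    · have ht' : t p = false := by simpa using ht
      have h1 := hg1 p
      simp only [bad, Set.mem_ofPred_eq, not_or, not_and, not_forall, not_not] at h1
      obtain ⟨a, ha, hga⟩ := h1.1 ht'
      have h2 := hOne p ht' a ha
      refine ⟨{a}, ?_, ?_, ?_, ?_⟩
      · intro v hv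
        simp only [Finset.coe_singleton, Set.mem_singleton_iff] at hv
        subst hv
        exact Or.inl (Or.inr ⟨h2.1, hga⟩)
      · intro v hv hvZ
        simp only [Finset.mem_singleton] at hv
        subst hv
        exact Set.disjoint_left.1 (hWZ i) hvZ h2.1
      · simp
      · exact ⟨a, by simp, a, by simp, Or.inl rfl, h2.2.1, h2.2.2⟩

end Pool.Agent.Work.MP_768e99_linear
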