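import Pool.Agent.Work.MP_768e99_linear.Interface

set_option autoImplicit false

namespace Pool.Agent.Work.MP_768e99_linear

open Pool.Agent.Work.MP_768e99_co Pool.Agent.Work.MP_768e99_pocket

theorem LG1 : L_LG1 := by
  classical
  intro hGen hN3 V _ r lam A i hA
  have hr : 1 ≤ r := Nat.one_le_iff_ne_zero.2 (by rintro rfl; exact i.elim0)
  have hi : (i : ℕ) < 2 * r := by have := i.isLt; omega
  -- the event and the map
  have key := hGen V (2 * r) (2 * r) 1 V A (fun a => {a})
    (fun a g => (g a : ℕ) = i) (fun a g => Function.update g a ⟨i, hi⟩) (by omega)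
    (fun a _ b _ hab => by simpa using hab)
    (fun a _ f g hfg hf => by
      have := hfg a (by simp)
      simpa [← this] using hf)
    (fun a _ f => by simp)
    (fun a _ f v hv => by
      have : v ≠ a := by simpa using hv
      simp [this])
    (fun a _ g => by
      have hsub : {f : V → Fin (2 * r) | Function.update f a ⟨i, hi⟩ = g} ⊆
          Set.range (fun x : Fin (2 * r) => Function.update g a x) := by
        intro f hf
        refine ⟨f a, ?_⟩
        have hf' : Function.update f a ⟨i, hi⟩ = g := hf
        show Function.update g a (f a) = f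
        rw [← hf']
        simp
      calc {f : V → Fin (2 * r) | Function.update f a ⟨i, hi⟩ = g}.ncard
          ≤ (Set.range (fun x : Fin (2 * r) => Function.update g a x)).ncard :=
            Set.ncard_le_ncard hsub (Set.toFinite _)
        _ ≤ Nat.card (Fin (2 * r)) := by
            rw [← Set.image_univ, ← Set.ncard_univ]
            exact Set.ncard_image_le (Set.toFinite _)
        _ = 2 * r := by simp)
  have hset : {f : V → Fin (2 * r) | {a | a ∈ A ∧ (f a : ℕ) = i}.ncard < 1} =
      {g : V → Fin (2 * r) | ∀ a ∈ A, (g a : ℕ) ≠ i} := by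
    ext f
    simp only [Set.mem_setOf_eq, Nat.lt_one_iff]
    rw [Set.ncard_eq_zero (Set.toFinite _)]
    constructor
    · intro h a ha hfa
      have : a ∈ {a | a ∈ A ∧ (f a : ℕ) = i} := ⟨ha, hfa⟩
      rw [h] at this
      exact this
    · intro h
      ext a
      simp only [Set.mem_setOf_eq, Set.mem_empty_iff_false, iff_false, not_and]
      exact h a
  rw [hset] at key
  set B := {g : V → Fin (2 * r) | ∀ a ∈ A, (g a : ℕ) ≠ i}.ncard with hB
  have h1 : B * 2 ^ (3 * (4 * (lam + 1))) ≤ 2 * (2 * r) ^ Fintype.card V := by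
    refine hN3 (2 * (2 * r)) (4 * (lam + 1)) A.card _ B (by omega) ?_ ?_
    · have : rob r lam = 192 * r * (lam + 1) := rfl
      rw [this] at hA
      nlinarith
    · calc B * (2 * (2 * r)) ^ A.card ≤ 2 ^ 1 * (2 * (2 * r) - 1) ^ A.card *
            (2 * r) ^ Fintype.card V := key
        _ = (2 * (2 * r) - 1) ^ A.card * (2 * (2 * r) ^ Fintype.card V) := by ring
  have h2 : 2 * 2 ^ (3 * (lam + 1)) ≤ 2 ^ (3 * (4 * (lam + 1))) := by
    rw [← pow_succ']
    exact Nat.pow_le_pow_right (by norm_num) (by omega)
  have h3 : B * (2 * 2 ^ (3 * (lam + 1))) ≤ 2 * (2 * r) ^ Fintype.card V :=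
    le_trans (Nat.mul_le_mul_left _ h2) h1
  nlinarith

end Pool.Agent.Work.MP_768e99_linear
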