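import Pool.Agent.Work.MP_768e99_linear.Interface

/-! # Block LG2 -/

set_option autoImplicit false

namespace Pool.Agent.Work.MP_768e99_linear

open Pool.Agent.Work.MP_768e99_co Pool.Agent.Work.MP_768e99_pocket

namespace LG2aux

/-- Shift a label above `r`. -/
def up (r : ℕ) (x : Fin (2 * r)) : Fin (2 * r) :=
  if h : (x : ℕ) < r then ⟨x + r, by omega⟩ else x

theorem up_ge (r : ℕ) (x : Fin (2 * r)) : r ≤ (up r x : ℕ) := by
  unfold up
  split_ifs with h
  · simp
  · omega

theorem up_inj (r : ℕ) (x y : Fin (2 * r)) (h : up r x = up r y)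
    (h' : ((x : ℕ) < r ↔ (y : ℕ) < r)) : x = y := by
  unfold up at h
  split_ifs at h with h1 h2 h2
  · have := congrArg Fin.val h
    simp at this
    exact Fin.ext this
  · tauto
  · tauto
  · exact h

end LG2aux

open LG2aux in
theorem LG2 : L_LG2 := by
  classical
  intro hGEN hN3 V _ r lam A b i hA hb hab
  have hr : 1 ≤ r := Nat.succ_le_of_lt (lt_of_le_of_lt (Nat.zero_le _) i.2)
  set T : V → (V → Fin (2 * r)) → (V → Fin (2 * r)) := fun a f =>
    Function.update (Function.update f a (up r (f a))) (b a) ⟨i, by have := i.2; omega⟩ with hT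
  have key := hGEN V (2 * r) (4 * r) (3 * (lam + 1)) V A (fun a => {a, b a})
    (fun a f => r ≤ (f a : ℕ) ∧ (f (b a) : ℕ) = i) T (by omega)
    (by
      intro a ha a' ha' hne
      rw [Finset.disjoint_left]
      intro x hx hx'
      simp only [Finset.mem_insert, Finset.mem_singleton] at hx hx'
      rcases hx with rfl | rfl
      · rcases hx' with h | h
        · exact hne h
        · exact hab a' ha' x ha h.symm
      · rcases hx' with h | h
        · exact hab a ha a' ha' h
        · exact hne (hb ha ha' h))
    (by
      intro a ha f g hfg hP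
      rw [← hfg a (by simp), ← hfg (b a) (by simp)]
      exact hP)
    (by
      intro a ha f
      have hne : a ≠ b a := fun h => hab a ha a ha h.symm
      refine ⟨?_, ?_⟩
      · simp only [hT]
        rw [Function.update_of_ne hne, Function.update_self]
        exact up_ge r (f a)
      · simp only [hT]
        rw [Function.update_self])
    (by
      intro a ha f v hv
      simp only [Finset.mem_insert, Finset.mem_singleton, not_or] at hv
      simp only [hT]
      rw [Function.update_of_ne hv.2, Function.update_of_ne hv.1])
    (by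
      intro a ha g
      have hne : a ≠ b a := fun h => hab a ha a ha h.symm
      have hinj : Set.InjOn (fun f : V → Fin (2 * r) => (f (b a), decide ((f a : ℕ) < r)))
          {f | T a f = g} := by
        intro f hf f' hf' hff
        simp only [Prod.mk.injEq, decide_eq_decide] at hff
        have hTT : T a f = T a f' := by rw [hf, hf']
        funext v
        by_cases hv2 : v = b a
        · rw [hv2]; exact hff.1
        · by_cases hv1 : v = a
          · subst hv1
            have h1 := congrFun hTT v
            simp only [hT] at h1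
            rw [Function.update_of_ne hne, Function.update_self, Function.update_of_ne hne,
              Function.update_self] at h1
            exact up_inj r _ _ h1 hff.2
          · have h1 := congrFun hTT v
            simp only [hT] at h1
            rw [Function.update_of_ne hv2, Function.update_of_ne hv1,
              Function.update_of_ne hv2, Function.update_of_ne hv1] at h1
            exact h1
      calc {f | T a f = g}.ncard
          = ((fun f : V → Fin (2 * r) => (f (b a), decide ((f a : ℕ) < r))) ''
              {f | T a f = g}).ncard := (Set.InjOn.ncard_image hinj).symm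
        _ ≤ (Set.univ : Set (Fin (2 * r) × Bool)).ncard :=
            Set.ncard_le_ncard (Set.subset_univ _) (Set.toFinite _)
        _ = 4 * r := by
            rw [Set.ncard_univ, Nat.card_prod]
            simp
            ring)
  have h2 := hN3 (8 * r) (2 * (lam + 1)) A.card
    (2 ^ (3 * (lam + 1)) * (2 * r) ^ Fintype.card V)
    ({g : V → Fin (2 * r) | {a | a ∈ A ∧ r ≤ (g a : ℕ) ∧ (g (b a) : ℕ) = i}.ncard <
      3 * (lam + 1)}.ncard) (by omega)
    (by
      have h : 48 * (r * (lam + 1)) < A.card := by
        have h3 : rob r lam = 192 * (r * (lam + 1)) := by unfold rob; ring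
        omega
      have h4 : 3 * (8 * r) * (2 * (lam + 1)) = 48 * (r * (lam + 1)) := by ring
      omega)
    (by
      have h5 : 2 * (4 * r) = 8 * r := by ring
      rw [h5] at key
      calc _ ≤ 2 ^ (3 * (lam + 1)) * (8 * r - 1) ^ A.card * (2 * r) ^ Fintype.card V := key
        _ = _ := by ring)
  have h6 : 2 ^ (3 * (2 * (lam + 1))) = 2 ^ (3 * (lam + 1)) * 2 ^ (3 * (lam + 1)) := by
    rw [← pow_add]; congr 1; ring
  rw [h6] at h2
  have hpos : 0 < 2 ^ (3 * (lam + 1)) := by positivity
  refine Nat.le_of_mul_le_mul_left ?_ hpos
  calc 2 ^ (3 * (lam + 1)) * ({g : V → Fin (2 * r) |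
        {a | a ∈ A ∧ r ≤ (g a : ℕ) ∧ (g (b a) : ℕ) = i}.ncard <
        3 * (lam + 1)}.ncard * 2 ^ (3 * (lam + 1)))
      = {g : V → Fin (2 * r) | {a | a ∈ A ∧ r ≤ (g a : ℕ) ∧ (g (b a) : ℕ) = i}.ncard <
        3 * (lam + 1)}.ncard * (2 ^ (3 * (lam + 1)) * 2 ^ (3 * (lam + 1))) := by ring
    _ ≤ _ := h2

end Pool.Agent.Work.MP_768e99_linear
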