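import Pool.Agent.Work.MP_768e99_linear.Interface

set_option autoImplicit false

namespace Pool.Agent.Work.MP_768e99_linear

open Pool.Agent.Work.MP_768e99_co Pool.Agent.Work.MP_768e99_pocket

theorem NX : L_NX := by
  classical
  intro V _ x
  let Φ : (Fin x → Option V) → Finset V := fun g => Finset.univ.filter (fun v => ∃ i, g i = some v)
  have hsub : {X : Finset V | X.card ≤ x} ⊆ Set.range Φ := by
    intro X hX
    rw [Set.mem_ofPred_eq] at hX
    let e := X.equivFin
    refine ⟨fun i => if h : (i : ℕ) < X.card then some (e.symm ⟨i, h⟩ : V) else none, ?_⟩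
    ext v
    simp only [Φ, Finset.mem_filter, Finset.mem_univ, true_and]
    constructor
    · rintro ⟨i, hi⟩
      by_cases h : (i : ℕ) < X.card
      · rw [dif_pos h] at hi
        rw [← Option.some.inj hi]
        exact (e.symm ⟨i, h⟩).2
      · rw [dif_neg h] at hi
        exact absurd hi (by simp)
    · intro hv
      refine ⟨⟨(e ⟨v, hv⟩ : ℕ), lt_of_lt_of_le (e ⟨v, hv⟩).2 hX⟩, ?_⟩
      have h : ((e ⟨v, hv⟩ : Fin X.card) : ℕ) < X.card := (e ⟨v, hv⟩).2
      rw [dif_pos h]
      simp
  have h1 := Set.ncard_le_ncard hsub (Set.toFinite _)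
  have h2 : (Set.range Φ).ncard ≤ Fintype.card (Fin x → Option V) := by
    rw [← Set.image_univ]
    refine (Set.ncard_image_le (Set.toFinite _)).trans ?_
    rw [Set.ncard_univ, Nat.card_eq_fintype_card]
  refine (h1.trans h2).trans ?_
  rw [Fintype.card_fun, Fintype.card_option, Fintype.card_fin]

end Pool.Agent.Work.MP_768e99_linear
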