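import Pool.Agent.Work.MP_768e99_linear.Interface

/-! # Block QB (helper65) -/

set_option autoImplicit false

namespace Pool.Agent.Work.MP_768e99_linear

theorem qb_event (V : Type) [Fintype V] [DecidableEq V] (r : ℕ) (b : Fin r → Option V)
    (P : Finset (Fin r) → (V → Fin (2 * r)) → Prop) [∀ S, DecidablePred (P S)]
    (hP : ∀ S g, P S g ↔ ∀ i ∈ S, ∃ v, b i = some v ∧ (g v : ℕ) = i) (S : Finset (Fin r)) :
    (Finset.univ.filter (P S)).card * (2 * r) ^ S.card ≤ (2 * r) ^ Fintype.card V := by
  classical
  induction S using Finset.induction_on with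
  | empty =>
    rw [Finset.card_empty, pow_zero, mul_one]
    refine (Finset.card_filter_le _ _).trans ?_
    rw [Finset.card_univ, Fintype.card_fun, Fintype.card_fin]
  | insert i S hi ih =>
    rw [Finset.card_insert_of_notMem hi, pow_succ]
    refine le_trans ?_ ih
    suffices h : (Finset.univ.filter (P (insert i S))).card * (2 * r) ≤
        (Finset.univ.filter (P S)).card by
      calc (Finset.univ.filter (P (insert i S))).card * ((2 * r) ^ S.card * (2 * r))
          = ((Finset.univ.filter (P (insert i S))).card * (2 * r)) * (2 * r) ^ S.card := by ring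
        _ ≤ _ := Nat.mul_le_mul_right _ h
    rcases hb : b i with _ | v
    · have h0 : Finset.univ.filter (P (insert i S)) = ∅ := by
        rw [Finset.filter_eq_empty_iff]
        intro g _ hg
        obtain ⟨v, hv, -⟩ := (hP _ _).1 hg i (Finset.mem_insert_self _ _)
        rw [hb] at hv
        exact Option.some_ne_none _ hv.symm
      rw [h0, Finset.card_empty, zero_mul]
      exact Nat.zero_le _
    · have h1 : (Finset.univ.filter (P (insert i S))).card * (2 * r) =
          (Finset.univ.filter (P (insert i S)) ×ˢ (Finset.univ : Finset (Fin (2 * r)))).card := by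
        rw [Finset.card_product, Finset.card_univ, Fintype.card_fin]
      rw [h1]
      have hval : ∀ g, P (insert i S) g → (g v : ℕ) = i := by
        intro g hg
        obtain ⟨w, hw, hg'⟩ := (hP _ _).1 hg i (Finset.mem_insert_self _ _)
        rw [hb] at hw
        rw [Option.some.injEq] at hw
        rw [hw]
        exact hg'
      refine Finset.card_le_card_of_injOn (fun x => Function.update x.1 v x.2) ?_ ?_
      · rintro ⟨g, a⟩ hx
        have hg : P (insert i S) g := by
          have := (Finset.mem_product.1 (Finset.mem_coe.1 hx)).1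
          exact (Finset.mem_filter.1 this).2
        rw [Finset.mem_coe, Finset.mem_filter]
        refine ⟨Finset.mem_univ _, (hP _ _).2 ?_⟩
        intro j hj
        obtain ⟨w, hw, hgw⟩ := (hP _ _).1 hg j (Finset.mem_insert_of_mem hj)
        refine ⟨w, hw, ?_⟩
        have hwv : w ≠ v := by
          rintro rfl
          have h2 := hval g hg
          rw [hgw] at h2
          exact hi (Fin.ext h2 ▸ hj)
        show ((Function.update g v a) w : ℕ) = j
        rw [Function.update_of_ne hwv]
        exact hgw
      · rintro ⟨g, a⟩ hx ⟨g', a'⟩ hx' h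
        have hg : P (insert i S) g := by
          have := (Finset.mem_product.1 (Finset.mem_coe.1 hx)).1
          exact (Finset.mem_filter.1 this).2
        have hg' : P (insert i S) g' := by
          have := (Finset.mem_product.1 (Finset.mem_coe.1 hx')).1
          exact (Finset.mem_filter.1 this).2
        have h' : Function.update g v a = Function.update g' v a' := h
        have ha : a = a' := by
          have := congrFun h' v
          rwa [Function.update_self, Function.update_self] at this
        have hgg : g = g' := by
          funext w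
          by_cases hw : w = v
          · subst hw
            exact Fin.ext ((hval g hg).trans (hval g' hg').symm)
          · have := congrFun h' w
            rwa [Function.update_of_ne hw, Function.update_of_ne hw] at this
        rw [ha, hgg]

theorem QB : L_QB := by
  intro V _ r q b hr
  classical
  have hB : {g : V → Fin (2 * r) | q ≤ {i : Fin r | ∃ v, b i = some v ∧ (g v : ℕ) = i}.ncard}.ncard =
      (Finset.univ.filter (fun g : V → Fin (2 * r) =>
        q ≤ (Finset.univ.filter (fun i : Fin r => ∃ v, b i = some v ∧ (g v : ℕ) = i)).card)).card := by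
    rw [← Set.ncard_coe_finset]
    congr 1
    ext g
    have h1 : {i : Fin r | ∃ v, b i = some v ∧ (g v : ℕ) = i}.ncard =
        (Finset.univ.filter (fun i : Fin r => ∃ v, b i = some v ∧ (g v : ℕ) = i)).card := by
      rw [← Set.ncard_coe_finset]
      congr 1
      ext i
      simp
    simp only [Set.mem_setOf_eq, Finset.coe_filter, Finset.mem_univ, true_and]
    rw [h1]
  rw [hB]
  let P : Finset (Fin r) → (V → Fin (2 * r)) → Prop :=
    fun S g => ∀ i ∈ S, ∃ v, b i = some v ∧ (g v : ℕ) = i
  have hev := fun S => qb_event V r b P (fun _ _ => Iff.rfl) S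
  have hsub : (Finset.univ.filter (fun g : V → Fin (2 * r) =>
      q ≤ (Finset.univ.filter (fun i : Fin r => ∃ v, b i = some v ∧ (g v : ℕ) = i)).card)) ⊆
      (Finset.powersetCard q (Finset.univ : Finset (Fin r))).biUnion
        (fun S => Finset.univ.filter (P S)) := by
    intro g hg
    have h2 := (Finset.mem_filter.1 hg).2
    obtain ⟨S, hS, hcard⟩ := Finset.exists_subset_card_eq h2
    rw [Finset.mem_biUnion]
    refine ⟨S, Finset.mem_powersetCard.2 ⟨Finset.subset_univ _, hcard⟩, ?_⟩
    refine Finset.mem_filter.2 ⟨Finset.mem_univ _, ?_⟩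
    intro i hi
    exact (Finset.mem_filter.1 (hS hi)).2
  have hcard := (Finset.card_le_card hsub).trans Finset.card_biUnion_le
  generalize (Finset.univ.filter (fun g : V → Fin (2 * r) =>
      q ≤ (Finset.univ.filter (fun i : Fin r => ∃ v, b i = some v ∧ (g v : ℕ) = i)).card)).card
      = X at hcard ⊢
  have h3 : X * (2 * r) ^ q ≤ r ^ q * (2 * r) ^ Fintype.card V := by
    calc X * (2 * r) ^ q ≤ (∑ S ∈ Finset.powersetCard q (Finset.univ : Finset (Fin r)),
          (Finset.univ.filter (P S)).card) * (2 * r) ^ q := Nat.mul_le_mul_right _ hcard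
      _ = ∑ S ∈ Finset.powersetCard q (Finset.univ : Finset (Fin r)),
          (Finset.univ.filter (P S)).card * (2 * r) ^ q := by rw [Finset.sum_mul]
      _ ≤ ∑ S ∈ Finset.powersetCard q (Finset.univ : Finset (Fin r)),
          (2 * r) ^ Fintype.card V := by
        refine Finset.sum_le_sum fun S hS => ?_
        have h4 := hev S
        rw [(Finset.mem_powersetCard.1 hS).2] at h4
        exact h4
      _ = r.choose q * (2 * r) ^ Fintype.card V := by
        rw [Finset.sum_const, Finset.card_powersetCard, Finset.card_univ, Fintype.card_fin,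
          smul_eq_mul]
      _ ≤ r ^ q * (2 * r) ^ Fintype.card V := Nat.mul_le_mul_right _ (Nat.choose_le_pow r q)
  have hrq : 0 < r ^ q := Nat.pow_pos (by omega)
  refine Nat.le_of_mul_le_mul_left ?_ hrq
  calc r ^ q * (X * 2 ^ q) = X * (2 * r) ^ q := by rw [mul_pow]; ring
    _ ≤ _ := h3

end Pool.Agent.Work.MP_768e99_linear
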