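import Pool.Agent.Work.MP_768e99_linear.Interface

set_option autoImplicit false

namespace Pool.Agent.Work.MP_768e99_linear

open Pool.Agent.Work.MP_768e99_co Pool.Agent.Work.MP_768e99_pocket

theorem SPL : L_SPL := by
  classical
  intro hCW V _ G x W Z D hR hdom hZW hD
  obtain ⟨F, hF, hdis, hx⟩ := hCW V G x W Z D hR hdom hZW hD
  -- a point of two members determines the member
  have huniq : ∀ c ∈ F, ∀ c' ∈ F, ∀ v, v ∈ c → v ∈ c' → c = c' := by
    intro c hc c' hc' v hv hv'
    by_contra hne
    exact (Finset.disjoint_left.1 (hdis c hc c' hc' hne)) hv hv'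
  set F1 : Finset (Finset V) := F.filter (fun c => ∃ a ∈ c, One G W Z D a) with hF1
  set F2 : Finset (Finset V) := F.filter (fun c => ¬ ∃ a ∈ c, One G W Z D a) with hF2
  have hcard : F1.card + F2.card = F.card := by
    rw [hF1, hF2]
    exact Finset.card_filter_add_card_filter_not _
  have hor : x < 4 * F1.card ∨ x < 4 * F2.card := by omega
  rcases hor with h1 | h2
  · left
    have hch : ∀ c : Finset V, ∃ a : V, c ∈ F1 → a ∈ c ∧ One G W Z D a := by
      intro c
      by_cases hc : c ∈ F1
      · obtain ⟨a, ha, ho⟩ := (Finset.mem_filter.1 hc).2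
        exact ⟨a, fun _ => ⟨ha, ho⟩⟩
      · have hne : Nonempty V := by
          obtain ⟨d, _⟩ := hD.2.1
          exact ⟨d⟩
        exact ⟨hne.some, fun h => absurd h hc⟩
    choose p hp using hch
    refine ⟨F1.image p, ?_, ?_⟩
    · rw [Finset.card_image_of_injOn]
      · exact h1
      · intro c hc c' hc' he
        have hcF : c ∈ F1 := hc
        have hcF' : c' ∈ F1 := hc'
        have he' : p c = p c' := he
        refine huniq c (Finset.mem_filter.1 hcF).1 c' (Finset.mem_filter.1 hcF').1 (p c)
          (hp c hcF).1 ?_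
        rw [he']
        exact (hp c' hcF').1
    · intro a ha
      obtain ⟨c, hc, rfl⟩ := Finset.mem_image.1 ha
      exact (hp c hc).2
  · right
    have hch : ∀ c : Finset V, ∃ q : V × V, c ∈ F2 → q.1 ∈ c ∧ q.2 ∈ c ∧
        Two G W Z D q.1 q.2 := by
      intro c
      by_cases hc : c ∈ F2
      · have hcF : c ∈ F := (Finset.mem_filter.1 hc).1
        have hno := (Finset.mem_filter.1 hc).2
        obtain ⟨⟨_, _, a, ha, b, hb, hab, hda, z, hz, hzD, hbz⟩, hcW⟩ := hF c hcF
        have haW : a ∈ W := hcW ha
        have hbW : b ∈ W := hcW hb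
        have hnz : ∀ z ∈ Z, z ∉ D → ¬ G.Adj a z := by
          intro z hz hzD haz
          exact hno ⟨a, ha, haW, hda, z, hz, hzD, haz⟩
        have hab' : G.Adj a b := by
          rcases hab with rfl | h
          · exact absurd hbz (hnz z hz hzD)
          · exact h
        exact ⟨(a, b), fun _ => ⟨ha, hb, haW, hbW, hda, hnz, hab', z, hz, hzD, hbz⟩⟩
      · have hne : Nonempty V := by
          obtain ⟨d, _⟩ := hD.2.1
          exact ⟨d⟩
        exact ⟨(hne.some, hne.some), fun h => absurd h hc⟩
    choose q hq using hch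
    have hmem : ∀ c ∈ F2, c ∈ F := fun c hc => (Finset.mem_filter.1 hc).1
    -- the partner of a vertex
    have hb : ∀ v : V, ∃ w : V, ∀ c ∈ F2, (q c).1 = v → w = (q c).2 := by
      intro v
      by_cases hv : ∃ c ∈ F2, (q c).1 = v
      · obtain ⟨c, hc, hcv⟩ := hv
        refine ⟨(q c).2, ?_⟩
        intro c' hc' hcv'
        have : c = c' := by
          refine huniq c (hmem c hc) c' (hmem c' hc') v ?_ ?_
          · rw [← hcv]
            exact (hq c hc).1
          · rw [← hcv']
            exact (hq c' hc').1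
        rw [this]
      · exact ⟨v, fun c hc hcv => absurd ⟨c, hc, hcv⟩ hv⟩
    choose b hb' using hb
    refine ⟨F2.image (fun c => (q c).1), b, ?_, ?_, ?_, ?_⟩
    · rw [Finset.card_image_of_injOn]
      · exact h2
      · intro c hc c' hc' he
        have hcF : c ∈ F2 := hc
        have hcF' : c' ∈ F2 := hc'
        have he' : (q c).1 = (q c').1 := he
        refine huniq c (hmem c hcF) c' (hmem c' hcF') (q c).1 (hq c hcF).1 ?_
        rw [he']
        exact (hq c' hcF').1
    · intro v hv w hw he
      obtain ⟨c, hc, hcv⟩ := Finset.mem_image.1 (Finset.mem_coe.1 hv)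
      obtain ⟨c', hc', hcw⟩ := Finset.mem_image.1 (Finset.mem_coe.1 hw)
      have e1 : b v = (q c).2 := hb' v c hc hcv
      have e2 : b w = (q c').2 := hb' w c' hc' hcw
      have hcc : c = c' := by
        refine huniq c (hmem c hc) c' (hmem c' hc') (q c).2 (hq c hc).2.1 ?_
        rw [← e1, he, e2]
        exact (hq c' hc').2.1
      rw [← hcv, ← hcw, hcc]
    · intro v hv w hw he
      obtain ⟨c, hc, hcv⟩ := Finset.mem_image.1 hv
      obtain ⟨c', hc', hcw⟩ := Finset.mem_image.1 hw
      have e1 : b v = (q c).2 := hb' v c hc hcv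
      have e3 : (q c).2 = (q c').1 := by
        rw [← e1, he]
        exact hcw.symm
      have hcc : c = c' := by
        refine huniq c (hmem c hc) c' (hmem c' hc') (q c).2 (hq c hc).2.1 ?_
        rw [e3]
        exact (hq c' hc').1
      have hadj : G.Adj (q c).1 (q c).2 := (hq c hc).2.2.2.2.2.2.1
      rw [e3, ← hcc] at hadj
      exact G.loopless.irrefl _ hadj
    · intro v hv
      obtain ⟨c, hc, hcv⟩ := Finset.mem_image.1 hv
      have e1 : b v = (q c).2 := hb' v c hc hcv
      rw [e1, ← hcv]
      exact (hq c hc).2.2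

end Pool.Agent.Work.MP_768e99_linear
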