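import Pool.Agent.Work.MP_768e99_linear.Interface
import Pool.Agent.Work.MP_768e99_pocket.Final
import Pool.Agent.Work.MP_768e99_pocket.POCKET

set_option autoImplicit false

namespace Pool.Agent.Work.MP_768e99_linear

open Pool.Agent.Work.MP_768e99_co Pool.Agent.Work.MP_768e99_pocket

/-- Disjoint connected dominating sets give the minor. -/
theorem minor_of_cds (hC : CDSPacking) (V : Type) [Fintype V] (G : SimpleGraph V)
    (e r s lam : ℕ) (he : 1 ≤ e) (hr : 1 ≤ r) (hlam : Fintype.card V < 2 ^ lam)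
    (hconn : KConn G (kap2 e r lam)) (hcard : kap2 e r lam + 2 ≤ Fintype.card V)
    (hs : (e + 1) * s ≤ e * Fintype.card V) : HasBicliqueMinor G r s := by
  classical
  obtain ⟨Z, hZ1, hZ2, hZ3, hZ4⟩ := hC V G e r lam he hr hlam hconn hcard
  -- the leaves
  let U : Finset V := Finset.univ.filter (fun v => ¬ ∃ i, v ∈ Z i)
  have hU : s ≤ U.card := by
    have h1 : (Finset.univ.filter (fun v => ∃ i, v ∈ Z i)).card + U.card =
        Fintype.card V := by
      rw [← Finset.card_univ]
      exact Finset.card_filter_add_card_filter_not _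
    have h2 : {v | ∃ i, v ∈ Z i}.ncard =
        (Finset.univ.filter (fun v => ∃ i, v ∈ Z i)).card := by
      rw [← Set.ncard_coe_finset]
      congr 1
      ext v; simp
    rw [h2] at hZ4
    generalize (Finset.univ.filter (fun v => ∃ i, v ∈ Z i)).card = x at *
    generalize U.card = y at *
    rw [← h1] at hs hZ4
    obtain ⟨e', rfl⟩ : ∃ e', e = e' + 1 := ⟨e - 1, by omega⟩
    by_contra hcon
    push Not at hcon
    obtain ⟨u, rfl⟩ : ∃ u, s = y + 1 + u := ⟨s - (y + 1), by omega⟩
    nlinarith [Nat.zero_le (e' * u), Nat.zero_le (e' * x), Nat.zero_le (e' * y)]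
  obtain ⟨T, hTU, hTc⟩ := Finset.exists_subset_card_eq hU
  have eT : Fin s ≃ T := (Fintype.equivFinOfCardEq (by simpa using hTc)).symm
  have hleaf : ∀ j i, ((eT j : V)) ∉ Z i := by
    intro j i hi
    have := hTU (eT j).2
    simp only [U, Finset.mem_filter, Finset.mem_univ, true_and] at this
    exact this ⟨i, hi⟩
  refine ⟨Sum.elim (fun i : Fin r => Z i) (fun j : Fin s => {(eT j : V)}), ?_, ?_, ?_⟩
  · rintro (i | j)
    · exact (hZ1 i).connected
    · exact (Conn.singleton (eT j : V)).connected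
  · rintro (i | j) (i' | j') hne'
    · exact hZ3 i i' (fun h => hne' (by rw [h]))
    · simp only [Sum.elim_inl, Sum.elim_inr, Set.disjoint_singleton_right]
      exact hleaf j' i
    · simp only [Sum.elim_inl, Sum.elim_inr, Set.disjoint_singleton_left]
      exact hleaf j i'
    · simp only [Sum.elim_inr, Set.disjoint_singleton]
      intro h
      apply hne'
      congr 1
      exact eT.injective (Subtype.ext h)
  · rintro (i | j) (i' | j') hadj
    · simp at hadj
    · obtain ⟨z, hz, hvz⟩ := hZ2 i (eT j')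
      exact ⟨z, hz, eT j', rfl, hvz.symm⟩
    · obtain ⟨z, hz, hvz⟩ := hZ2 i' (eT j)
      exact ⟨eT j, rfl, z, hz, hvz⟩
    · simp at hadj

lemma kap2_lower (e r lam : ℕ) (he : 1 ≤ e) : 97 * (192 * r * (lam + 1)) * (lam + 1) ^ 5 ≤
    kap2 e r lam := by
  unfold kap2 kapx rob
  have h2 : 1 ≤ e ^ 2 := Nat.one_le_pow _ _ he
  calc 97 * (192 * r * (lam + 1)) * (lam + 1) ^ 5 =
      97 * 1 * (lam + 1) ^ 5 * (192 * r * (lam + 1)) := by ring
    _ ≤ 97 * e ^ 2 * (lam + 1) ^ 5 * (192 * r * (lam + 1) + 1) := by gcongr; omega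

/-- **The pocket lemma, linear in `r`.** -/
theorem pocketLin_of (hH1 : B_H1) (hT1 : B_T1) (hT2 : B_T2) (hS1 : B_S1) (hN1 : B_N1)
    (hN2 : B_N2) (hN5 : B_N5) (hM1 : B_M1) (hM2 : B_M2) (hM3 : B_M3) (hM4 : B_M4) (hP1 : B_P1)
    (hC : CDSPacking) : PocketLin := by
  classical
  intro e r s he hr hs V _ _ G hG
  set L := Nat.log 2 s + 1 with hL
  set lam := 20 * L with hlam
  have hL1 : 1 ≤ L := by omega
  -- sizes
  have hkap1 : 2 ^ 20 * r ≤ kap2 e r lam := by
    refine le_trans ?_ (kap2_lower e r lam he)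
    have h1 : 21 ^ 5 ≤ (lam + 1) ^ 5 := Nat.pow_le_pow_left (by omega) 5
    calc 2 ^ 20 * r ≤ 97 * (192 * r * 1) * 21 ^ 5 := by nlinarith
      _ ≤ 97 * (192 * r * (lam + 1)) * (lam + 1) ^ 5 := by gcongr; omega
  have hkappos : 0 < kap2 e r lam := by omega
  have hs20 : 2 ^ 20 ≤ s := by omega
  have hrs : r ≤ s := by omega
  have hs1 : 1 ≤ s := by omega
  obtain ⟨S, hS⟩ := hM1 V G ((5 * kap2 e r lam : ℕ) : ℝ) s (by exact_mod_cast (by omega)) hs1
  obtain ⟨hSne, hSlt, hSmin⟩ := hS
  have hS : MinSet G ((5 * kap2 e r lam : ℕ) : ℝ) s S := ⟨hSne, hSlt, hSmin⟩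
  have hsR : (1 : ℝ) ≤ (s : ℝ) := by exact_mod_cast hs1
  -- the size of `S`
  have hmain : e * S.card ≤ (e + 1) * s := by
    by_contra hcon
    push Not at hcon
    have hsS : s < S.card := by
      by_contra h
      push Not at h
      have : e * S.card ≤ e * s := Nat.mul_le_mul_left _ h
      have : e * s ≤ (e + 1) * s := Nat.mul_le_mul_right _ (by omega)
      omega
    have hrho : (((5 * kap2 e r lam : ℕ) : ℝ)) ≤ (S.card : ℝ) := by exact_mod_cast (by omega)
    obtain ⟨t, ht⟩ := hH1 V G S (nb G S)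
      (hM2 hN1 V G _ s S (by exact_mod_cast (by omega)) hs1 hrho hS)
    have hdisj : Disjoint S (nb G S) := by
      rw [Finset.disjoint_left]
      intro v hv hv'
      exact (mem_nb.1 hv').1 hv
    have hconn := hM3 hN1 hS1 V G (kap2 e r lam) s S t hs1 hS hkappos ht
    have hbic : ¬ HasBicliqueMinor (cg G S (nb G S) t) r s := fun h =>
      hG (hT1 V (Fin r ⊕ Fin s) G _ S (nb G S) t hdisj ht h)
    have hclique : ¬ IsMinor (⊤ : SimpleGraph (Fin (r + s))) (cg G S (nb G S) t) := fun h =>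
      hbic (hT2 _ _ r s h)
    -- `S` is not too large
    have hx : S.card < s ^ 20 := by
      by_contra hx
      push Not at hx
      obtain ⟨l, lam', hl, hxl, hq, hpsi⟩ := hN5 s (r + s) S.card hs20 (by omega) hx
      obtain ⟨A, hA1, hA2, hA3⟩ := hP1 {x // x ∈ S} (cg G S (nb G S) t) (r + s) l lam' hl
        (by rw [card_sub]; exact hxl) (by rw [card_sub]; exact hq) hclique
        (by rw [card_sub]; omega)
      rw [card_sub] at hA1 hA2 hA3
      have h4 := hM4 hN1 hN2 hS1 V G _ s S t (by exact_mod_cast (by omega)) hs1 hS ht A hA1 hA2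
      have hlR : (0 : ℝ) < (l : ℝ) := by exact_mod_cast hl
      have h5 : (l : ℝ) * ((nb (cg G S (nb G S) t) A).card : ℝ) ≤
          ((l * (r + s) * (1 + 2 * (r + s) * l * lam') + S.card : ℕ) : ℝ) := by
        exact_mod_cast hA3
      have h6 : (l : ℝ) * psi S.card < (l : ℝ) * psi S.card := by
        calc (l : ℝ) * psi S.card <
            l * (50 * s * ((nb (cg G S (nb G S) t) A).card : ℝ)) := by
              exact mul_lt_mul_of_pos_left h4 hlR
          _ = 50 * s * ((l : ℝ) * ((nb (cg G S (nb G S) t) A).card : ℝ)) := by ring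
          _ ≤ 50 * s * ((l * (r + s) * (1 + 2 * (r + s) * l * lam') + S.card : ℕ) : ℝ) := by
              gcongr
          _ ≤ l * psi S.card := hpsi
      exact lt_irrefl _ h6
    have hxlam : S.card < 2 ^ lam := by
      refine hx.trans ?_
      have h1 : s < 2 ^ L := Nat.lt_pow_succ_log_self (by norm_num) s
      calc s ^ 20 < (2 ^ L) ^ 20 := Nat.pow_lt_pow_left h1 (by norm_num)
        _ = 2 ^ lam := by rw [← pow_mul, hlam, mul_comm]
    exact hbic (minor_of_cds hC {x // x ∈ S} (cg G S (nb G S) t) e r s lam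
      he hr (by rw [card_sub]; exact hxlam) hconn (by rw [card_sub]; omega)
      (by rw [card_sub]; exact hcon.le))
  refine ⟨S, hSne, ?_, ?_⟩
  · rw [Nat.le_div_iff_mul_le (by omega), mul_comm]; exact hmain
  · have h2 : S.card ≤ 2 * s := by
      by_contra h
      push Not at h
      nlinarith
    have h3 : psi S.card / s ≤ 2 := by
      rw [div_le_iff₀ (by linarith)]
      have := hN1.2.2.1 S.card
      have h4 : (S.card : ℝ) ≤ 2 * s := by exact_mod_cast h2
      linarith
    have h5 : ((nb G S).card : ℝ) < ((5 * kap2 e r lam + 2 : ℕ) : ℝ) := by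
      unfold phi at hSlt
      push_cast at hSlt ⊢
      linarith
    have h6 : (nb G S).card < 5 * kap2 e r lam + 2 := by exact_mod_cast h5
    exact h6.le

/-- the numerical bound -/
lemma kap2_le (e r L : ℕ) (hr : 1 ≤ r) (hL : 1 ≤ L) :
    kap2 e r (20 * L) ≤ 1610000000000 * (e ^ 2 * r * L ^ 6) := by
  unfold kap2 kapx rob
  have h1 : (20 * L + 1) ^ 5 ≤ (21 * L) ^ 5 := Nat.pow_le_pow_left (by omega) 5
  have h2 : 192 * r * (20 * L + 1) + 1 ≤ 193 * r * (21 * L) := by
    have : 192 * r * (20 * L + 1) ≤ 192 * r * (21 * L) := Nat.mul_le_mul_left _ (by omega)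
    have h3 : 1 ≤ r * (21 * L) := Nat.one_le_iff_ne_zero.2 (by positivity)
    nlinarith
  calc 97 * e ^ 2 * (20 * L + 1) ^ 5 * (192 * r * (20 * L + 1) + 1) ≤
      97 * e ^ 2 * (21 * L) ^ 5 * (193 * r * (21 * L)) := by gcongr
    _ = 1605627551241 * (e ^ 2 * r * L ^ 6) + 0 := by ring
    _ ≤ _ := by
      rw [Nat.add_zero]
      exact Nat.mul_le_mul_right _ (by norm_num)

end Pool.Agent.Work.MP_768e99_linear
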