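import Pool.Agent.Work.MP_768e99_pocket.Interface

/-!
# Stage 2: the pocket lemma with linear dependence on `r`

Disjoint connected dominating sets: `r` of them in a graph of connectivity `C r lam^6`.
Every block is one proposition `L_xxx`; the file of block `xxx` (in this folder) proves
`theorem xxx : L_xxx` in the namespace `Pool.Agent.Work.MP_768e99_linear`.
-/

set_option autoImplicit false

namespace Pool.Agent.Work.MP_768e99_linear

open Pool.Agent.Work.MP_768e99_co Pool.Agent.Work.MP_768e99_pocket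

universe u

variable {V : Type u}

/-- `W` stays connected and dominating after the deletion of any `x` vertices. -/
def Robust (G : SimpleGraph V) (W : Set V) (x : ℕ) : Prop :=
  ∀ X : Finset V, X.card ≤ x → Conn G (W \ X) ∧ Dom G (W \ X)

/-- The robustness needed for one layer with `r` classes. -/
def rob (r lam : ℕ) : ℕ := 192 * r * (lam + 1)

/-- The connectivity needed for `x`-robust random sets. -/
def kapx (e lam x : ℕ) : ℕ := 97 * e ^ 2 * (lam + 1) ^ 5 * (x + 1)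

/-- The connectivity needed for `r` disjoint connected dominating sets. -/
def kap2 (e r lam : ℕ) : ℕ := kapx e lam (rob r lam)

/-! ## Random sets are robust

Labels `Fin (numL e (lam+1) lam)`, `numL e (lam+1) lam = 4 e (lam+1)²`; the set `W_i`, `i ≤ lam`,
is `Zset lam i lam f`, with layers `j ≤ lam`. -/

/-- Connectors avoiding a set `X` (same proof as `B_K1`, with `X` added to the union of the
maximal family). -/
def L_K1X : Prop := ∀ (V : Type) [Fintype V] (G : SimpleGraph V) (k : ℕ) (Z D : Set V)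
  (X : Finset V), KConn G k → Dom G Z → Disjoint Z (X : Set V) → Closed G Z D →
  ∃ F : Finset (Finset V), (∀ c ∈ F, Connector G Z D c ∧ Disjoint c X) ∧
    (∀ c ∈ F, ∀ c' ∈ F, c ≠ c' → Disjoint c c') ∧ k < 2 * F.card + X.card

/-- As `B_E1`, for the graph without `X`. -/
def L_E1X : Prop := B_I1 → B_N3 → ∀ (V : Type) [Fintype V] (G : SimpleGraph V)
  (e lam i x : ℕ) (X : Finset V), 1 ≤ e → i < lam + 1 → X.card ≤ x → KConn G (kapx e lam x) →
  kapx e lam x + 2 ≤ Fintype.card V →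
  {f : V → Fin (numL e (lam + 1) lam) | ¬ Dom G (Zset lam i 0 f \ X)}.ncard *
    2 ^ (3 * ((lam + 1) * (x + 1))) ≤ Fintype.card V * numL e (lam + 1) lam ^ Fintype.card V

/-- As `B_E2`, for the graph without `X`. -/
def L_E2X : Prop := B_I1 → B_N3 → L_K1X → ∀ (V : Type) [Fintype V] (G : SimpleGraph V)
  (e lam i j x : ℕ) (X : Finset V), 1 ≤ e → i < lam + 1 → j < lam → X.card ≤ x →
  KConn G (kapx e lam x) →
  {f : V → Fin (numL e (lam + 1) lam) | Dom G (Zset lam i j f \ X) ∧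
    ∃ D, Closed G (Zset lam i j f \ X) D ∧ Conn G D ∧
      ¬ ∃ c : Finset V, (c : Set V) ⊆ Zset lam i (j + 1) f \ X ∧
        Connector G (Zset lam i j f \ X) D c}.ncard * 2 ^ (3 * ((lam + 1) * (x + 1))) ≤
    Fintype.card V * numL e (lam + 1) lam ^ Fintype.card V

/-- The number of sets with at most `x` elements. -/
def L_NX : Prop := ∀ (V : Type) [Fintype V] (x : ℕ),
  {X : Finset V | X.card ≤ x}.ncard ≤ (Fintype.card V + 1) ^ x

/-- The union bound over all `X`, `i`, `j`. -/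
def L_SAMPLE : Prop := L_K1X → L_E1X → L_E2X → L_NX → B_E3 → B_I1 → B_N3 → B_Z1 →
  ∀ (V : Type) [Fintype V] (G : SimpleGraph V) (e lam x : ℕ), 1 ≤ e →
  Fintype.card V < 2 ^ lam → KConn G (kapx e lam x) → kapx e lam x + 2 ≤ Fintype.card V →
  ∃ f : V → Fin (numL e (lam + 1) lam), (∀ i, i < lam + 1 → Robust G (Zset lam i lam f) x) ∧
    2 * e * {v | (f v : ℕ) < (lam + 1) * (lam + 1)}.ncard ≤ Fintype.card V

/-! ## Counting -/

/-- Generating function bound. The events `P i`, `i ∈ F`, depend on disjoint sets of coordinates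
`c i`, and each of them has probability at least `1/Q` in the following sense: there is a map
`T i` into the event, changing only the coordinates in `c i`, with fibres of size at most `Q`.
Then at least `q` events hold, except for few maps.
(Show `∑ f, 2 ^ (|F| - #{i ∈ F | P i f}) * Q ^ |F| ≤ (2 Q - 1) ^ |F| * M ^ |V|` by induction
on `F`.) -/
def L_GEN : Prop := ∀ (V : Type) [Fintype V] [DecidableEq V] (M Q q : ℕ) (I : Type)
  [DecidableEq I] (F : Finset I) (c : I → Finset V) (P : I → (V → Fin M) → Prop)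
  (T : I → (V → Fin M) → (V → Fin M)), 1 ≤ Q →
  (∀ i ∈ F, ∀ j ∈ F, i ≠ j → Disjoint (c i) (c j)) →
  (∀ i ∈ F, ∀ f g : V → Fin M, (∀ v ∈ c i, f v = g v) → P i f → P i g) →
  (∀ i ∈ F, ∀ f, P i (T i f)) → (∀ i ∈ F, ∀ f, ∀ v, v ∉ c i → T i f v = f v) →
  (∀ i ∈ F, ∀ g, {f | T i f = g}.ncard ≤ Q) →
  {f : V → Fin M | {i | i ∈ F ∧ P i f}.ncard < q}.ncard * (2 * Q) ^ F.card ≤
    2 ^ q * (2 * Q - 1) ^ F.card * M ^ Fintype.card V

/-- Some vertex of a large set gets the label `i`. -/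
def L_LG1 : Prop := L_GEN → B_N3 → ∀ (V : Type) [Fintype V] (r lam : ℕ) (A : Finset V)
  (i : Fin r), rob r lam < 4 * A.card →
  {g : V → Fin (2 * r) | ∀ a ∈ A, (g a : ℕ) ≠ i}.ncard * 2 ^ (3 * (lam + 1)) ≤
    (2 * r) ^ Fintype.card V

/-- Many pairs `(a, b a)` get labels `≥ r` at `a` and `i` at `b a`. -/
def L_LG2 : Prop := L_GEN → B_N3 → ∀ (V : Type) [Fintype V] (r lam : ℕ) (A : Finset V)
  (b : V → V) (i : Fin r), rob r lam < 4 * A.card → Set.InjOn b A →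
  (∀ a ∈ A, ∀ a' ∈ A, b a ≠ a') →
  {g : V → Fin (2 * r) | {a | a ∈ A ∧ r ≤ (g a : ℕ) ∧ (g (b a) : ℕ) = i}.ncard <
      3 * (lam + 1)}.ncard * 2 ^ (3 * (lam + 1)) ≤ (2 * r) ^ Fintype.card V

/-- Few classes `i` have their vertex `b i` labelled `i`: at most `C(r,q) / (2r)^q ≤ 2^(-q)`. -/
def L_QB : Prop := ∀ (V : Type) [Fintype V] (r q : ℕ) (b : Fin r → Option V), 1 ≤ r →
  {g : V → Fin (2 * r) | q ≤ {i : Fin r | ∃ v, b i = some v ∧ (g v : ℕ) = i}.ncard}.ncard *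
    2 ^ q ≤ (2 * r) ^ Fintype.card V

/-- Hall's theorem from degrees. -/
def L_HALL2 : Prop := ∀ (V I : Type) [Finite V] [Finite I] (q : ℕ) (N : I → Set V), 1 ≤ q →
  (∀ i, q ≤ (N i).ncard) → (∀ v, {i | v ∈ N i}.ncard ≤ q) →
  ∃ h : I → V, Function.Injective h ∧ ∀ i, h i ∈ N i

/-! ## One layer -/

/-- Connectors inside a robust set. -/
def L_CW : Prop := ∀ (V : Type) [Fintype V] (G : SimpleGraph V) (x : ℕ) (W Z D : Set V),
  Robust G W x → Dom G Z → Disjoint Z W → Closed G Z D →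
  ∃ F : Finset (Finset V), (∀ c ∈ F, Connector G Z D c ∧ (c : Set V) ⊆ W) ∧
    (∀ c ∈ F, ∀ c' ∈ F, c ≠ c' → Disjoint c c') ∧ x < 2 * F.card

/-- `a` is a one-vertex connector. -/
def One (G : SimpleGraph V) (W Z D : Set V) (a : V) : Prop :=
  a ∈ W ∧ (∃ d ∈ D, G.Adj d a) ∧ ∃ z ∈ Z, z ∉ D ∧ G.Adj a z

/-- `(a, b)` is a two-vertex connector and `a` alone is none. -/
def Two (G : SimpleGraph V) (W Z D : Set V) (a b : V) : Prop :=
  a ∈ W ∧ b ∈ W ∧ (∃ d ∈ D, G.Adj d a) ∧ (∀ z ∈ Z, z ∉ D → ¬ G.Adj a z) ∧ G.Adj a b ∧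
    ∃ z ∈ Z, z ∉ D ∧ G.Adj b z

/-- Many one-vertex connectors or many two-vertex connectors. -/
def L_SPL : Prop := L_CW → ∀ (V : Type) [Fintype V] (G : SimpleGraph V) (x : ℕ)
  (W Z D : Set V), Robust G W x → Dom G Z → Disjoint Z W → Closed G Z D →
  (∃ A : Finset V, x < 4 * A.card ∧ ∀ a ∈ A, One G W Z D a) ∨
  ∃ (A : Finset V) (b : V → V), x < 4 * A.card ∧ Set.InjOn b A ∧
    (∀ a ∈ A, ∀ a' ∈ A, b a ≠ a') ∧ ∀ a ∈ A, Two G W Z D a (b a)

/-- The first layer: `r` disjoint dominating subsets of a robust set (random classes). -/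
def L_DOM0 : Prop := L_GEN → B_N3 → ∀ (V : Type) [Fintype V] (G : SimpleGraph V) (r lam : ℕ)
  (W : Set V), 1 ≤ r → Fintype.card V < 2 ^ lam → Robust G W (rob r lam) →
  ∃ Z : Fin r → Set V, (∀ i, Z i ⊆ W) ∧ (∀ i j, i ≠ j → Disjoint (Z i) (Z j)) ∧
    ∀ i, Dom G (Z i)

/-- One layer. `g : V → Fin (2 r)` random, `W` robust: class `i` gets the vertices of `W` with
label `i < r`; every component `D` of `Z i` of the second kind gets one more vertex `a` with
label `≥ r` such that `b a` has the label `i` (Hall). -/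
def L_LAYER : Prop := L_GEN → B_N3 → L_CW → L_SPL → L_LG1 → L_LG2 → L_QB → L_HALL2 →
  ∀ (V : Type) [Fintype V] (G : SimpleGraph V) (r lam : ℕ) (W : Set V) (Z : Fin r → Set V),
  1 ≤ r → Fintype.card V < 2 ^ lam → Robust G W (rob r lam) → (∀ i, Dom G (Z i)) →
  (∀ i, Disjoint (Z i) W) → (∀ i j, i ≠ j → Disjoint (Z i) (Z j)) →
  ∃ Z' : Fin r → Set V, (∀ i, Z i ⊆ Z' i) ∧ (∀ i, Z' i ⊆ Z i ∪ W) ∧
    (∀ i j, i ≠ j → Disjoint (Z' i) (Z' j)) ∧
    ∀ i D, Closed G (Z i) D → Conn G D →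
      ∃ c : Finset V, (c : Set V) ⊆ Z' i ∧ Connector G (Z i) D c

/-- Disjoint connected dominating sets. -/
def CDSPacking : Prop := ∀ (V : Type) [Fintype V] (G : SimpleGraph V) (e r lam : ℕ), 1 ≤ e →
  1 ≤ r → Fintype.card V < 2 ^ lam → KConn G (kap2 e r lam) →
  kap2 e r lam + 2 ≤ Fintype.card V →
  ∃ Z : Fin r → Set V, (∀ i, Conn G (Z i)) ∧ (∀ i, Dom G (Z i)) ∧
    (∀ i j, i ≠ j → Disjoint (Z i) (Z j)) ∧ 2 * e * {v | ∃ i, v ∈ Z i}.ncard ≤ Fintype.card V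

/-- `W_0` gives the dominating sets (`L_DOM0`), `W_1, …, W_lam` the layers, then `B_Z1`. -/
def L_CDSP : Prop := (∀ (V : Type) [Fintype V] (G : SimpleGraph V) (e lam x : ℕ), 1 ≤ e →
    Fintype.card V < 2 ^ lam → KConn G (kapx e lam x) → kapx e lam x + 2 ≤ Fintype.card V →
    ∃ f : V → Fin (numL e (lam + 1) lam), (∀ i, i < lam + 1 → Robust G (Zset lam i lam f) x) ∧
      2 * e * {v | (f v : ℕ) < (lam + 1) * (lam + 1)}.ncard ≤ Fintype.card V) →
  (∀ (V : Type) [Fintype V] (G : SimpleGraph V) (r lam : ℕ)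
    (W : Set V), 1 ≤ r → Fintype.card V < 2 ^ lam → Robust G W (rob r lam) →
    ∃ Z : Fin r → Set V, (∀ i, Z i ⊆ W) ∧ (∀ i j, i ≠ j → Disjoint (Z i) (Z j)) ∧
      ∀ i, Dom G (Z i)) →
  (∀ (V : Type) [Fintype V] (G : SimpleGraph V) (r lam : ℕ) (W : Set V) (Z : Fin r → Set V),
    1 ≤ r → Fintype.card V < 2 ^ lam → Robust G W (rob r lam) → (∀ i, Dom G (Z i)) →
    (∀ i, Disjoint (Z i) W) → (∀ i j, i ≠ j → Disjoint (Z i) (Z j)) →
    ∃ Z' : Fin r → Set V, (∀ i, Z i ⊆ Z' i) ∧ (∀ i, Z' i ⊆ Z i ∪ W) ∧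
      (∀ i j, i ≠ j → Disjoint (Z' i) (Z' j)) ∧
      ∀ i D, Closed G (Z i) D → Conn G D →
        ∃ c : Finset V, (c : Set V) ⊆ Z' i ∧ Connector G (Z i) D c) →
  B_Z1 → CDSPacking

/-- **Pocket lemma**, linear in `r`: `L = log₂ s + 1`, `lam = 20 L`, `k0 = 5 kap2 + 2`. -/
def PocketLin : Prop := ∀ (e r s : ℕ), 1 ≤ e → 1 ≤ r →
  5 * kap2 e r (20 * (Nat.log 2 s + 1)) ≤ s → ∀ (V : Type) [Fintype V] [Nonempty V]
  (G : SimpleGraph V), ¬ HasBicliqueMinor G r s →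
  Pocket G ((e + 1) * s / e) (5 * kap2 e r (20 * (Nat.log 2 s + 1)) + 2)

end Pool.Agent.Work.MP_768e99_linear
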