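import Pool.Agent.Work.MP_768e99_linear.Interface

set_option autoImplicit false

namespace Pool.Agent.Work.MP_768e99_linear

open Pool.Agent.Work.MP_768e99_co Pool.Agent.Work.MP_768e99_pocket

theorem zset_mono {V : Type} {M : ℕ} (lam i : ℕ) {j j' : ℕ} (h : j ≤ j') (f : V → Fin M) :
    Zset lam i j f ⊆ Zset lam i j' f := by
  intro v hv
  simp only [Zset, Set.mem_ofPred_eq] at hv ⊢
  omega

theorem dom_mono {V : Type} {G : SimpleGraph V} {Z Z' : Set V} (h : Z ⊆ Z') (hZ : Dom G Z) :
    Dom G Z' := fun v => by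
  obtain ⟨z, hz, hz'⟩ := hZ v
  exact ⟨z, h hz, hz'⟩

theorem SAMPLE : L_SAMPLE := by
  classical
  intro hK hE1 hE2 hNX hE3 hI hN hZ V _ G e lam x he hlam hconn hcard
  have hV : Nonempty V := Fintype.card_pos_iff.1 (by omega)
  generalize hMdef : numL e (lam + 1) lam = M at *
  have hMpos : 0 < M := by
    rw [← hMdef]; unfold numL; positivity
  let n := Fintype.card V
  let N := 2 ^ (3 * ((lam + 1) * (x + 1)))
  let XX : Finset (Finset V) := Finset.univ.filter (fun X => X.card ≤ x)
  have hnc : ∀ (p : (V → Fin M) → Prop) [DecidablePred p], {f : V → Fin M | p f}.ncard =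
      (Finset.univ.filter p).card := by
    intro p _
    rw [← Set.ncard_coe_finset]
    congr 1
    ext f
    simp
  have hXX : XX.card ≤ (n + 1) ^ x := by
    have h := hNX V x
    have h2 : {X : Finset V | X.card ≤ x}.ncard = XX.card := by
      rw [← Set.ncard_coe_finset]
      congr 1
      ext X
      simp [XX]
    rw [h2] at h
    exact h
  let P1 : Finset V → ℕ → (V → Fin M) → Prop := fun X i f => ¬ Dom G (Zset lam i 0 f \ X)
  let P2 : Finset V → ℕ → ℕ → (V → Fin M) → Prop := fun X i j f =>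
    Dom G (Zset lam i j f \ X) ∧
      ∃ D, Closed G (Zset lam i j f \ X) D ∧ Conn G D ∧
        ¬ ∃ c : Finset V, (c : Set V) ⊆ Zset lam i (j + 1) f \ X ∧
          Connector G (Zset lam i j f \ X) D c
  let P3 : (V → Fin M) → Prop := fun f =>
    Fintype.card V < 2 * e * {v | (f v : ℕ) < (lam + 1) * (lam + 1)}.ncard
  let S1 : Finset (V → Fin M) := XX.biUnion fun X => (Finset.range (lam + 1)).biUnion fun i =>
    Finset.univ.filter (P1 X i)
  let S2 : Finset (V → Fin M) := XX.biUnion fun X => (Finset.range (lam + 1)).biUnion fun i =>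
    (Finset.range lam).biUnion fun j => Finset.univ.filter (P2 X i j)
  let S3 : Finset (V → Fin M) := Finset.univ.filter P3
  have b1 : ∀ X ∈ XX, ∀ i ∈ Finset.range (lam + 1),
      (Finset.univ.filter (P1 X i)).card * N ≤ n * M ^ n := by
    intro X hX i hi
    have h := hE1 hI hN V G e lam i x X he (Finset.mem_range.1 hi) (Finset.mem_filter.1 hX).2
      hconn hcard
    rw [hMdef] at h
    rw [← hnc (P1 X i)]
    exact h
  have b2 : ∀ X ∈ XX, ∀ i ∈ Finset.range (lam + 1), ∀ j ∈ Finset.range lam,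
      (Finset.univ.filter (P2 X i j)).card * N ≤ n * M ^ n := by
    intro X hX i hi j hj
    have h := hE2 hI hN hK V G e lam i j x X he (Finset.mem_range.1 hi) (Finset.mem_range.1 hj)
      (Finset.mem_filter.1 hX).2 hconn
    rw [hMdef] at h
    rw [← hnc (P2 X i j)]
    exact h
  have c1 : S1.card * N ≤ XX.card * ((lam + 1) * (n * M ^ n)) := by
    calc S1.card * N ≤ (∑ X ∈ XX, ∑ i ∈ Finset.range (lam + 1),
        (Finset.univ.filter (P1 X i)).card) * N := by
          refine Nat.mul_le_mul_right _ (Finset.card_biUnion_le.trans ?_)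
          exact Finset.sum_le_sum fun X _ => Finset.card_biUnion_le
      _ = ∑ X ∈ XX, ∑ i ∈ Finset.range (lam + 1), (Finset.univ.filter (P1 X i)).card * N := by
          rw [Finset.sum_mul]
          exact Finset.sum_congr rfl fun X _ => Finset.sum_mul _ _ _
      _ ≤ ∑ X ∈ XX, ∑ i ∈ Finset.range (lam + 1), n * M ^ n :=
          Finset.sum_le_sum fun X hX => Finset.sum_le_sum fun i hi => b1 X hX i hi
      _ = _ := by simp only [Finset.sum_const, Finset.card_range, smul_eq_mul]
  have c2 : S2.card * N ≤ XX.card * ((lam + 1) * (lam * (n * M ^ n))) := by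
    calc S2.card * N ≤ (∑ X ∈ XX, ∑ i ∈ Finset.range (lam + 1), ∑ j ∈ Finset.range lam,
        (Finset.univ.filter (P2 X i j)).card) * N := by
          refine Nat.mul_le_mul_right _ (Finset.card_biUnion_le.trans ?_)
          refine Finset.sum_le_sum fun X _ => Finset.card_biUnion_le.trans ?_
          exact Finset.sum_le_sum fun i _ => Finset.card_biUnion_le
      _ = ∑ X ∈ XX, ∑ i ∈ Finset.range (lam + 1), ∑ j ∈ Finset.range lam,
          (Finset.univ.filter (P2 X i j)).card * N := by
          rw [Finset.sum_mul]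
          refine Finset.sum_congr rfl fun X _ => ?_
          rw [Finset.sum_mul]
          exact Finset.sum_congr rfl fun i _ => Finset.sum_mul _ _ _
      _ ≤ ∑ X ∈ XX, ∑ i ∈ Finset.range (lam + 1), ∑ j ∈ Finset.range lam, n * M ^ n :=
          Finset.sum_le_sum fun X hX => Finset.sum_le_sum fun i hi =>
            Finset.sum_le_sum fun j hj => b2 X hX i hi j hj
      _ = _ := by simp only [Finset.sum_const, Finset.card_range, smul_eq_mul]
  have c3 : S3.card * 2 ≤ M ^ n := by
    have h := hE3 V e (lam + 1) lam he (by omega)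
    rw [hMdef] at h
    show (Finset.univ.filter P3).card * 2 ≤ M ^ n
    rw [← hnc P3]
    exact h
  have hMn : 0 < M ^ n := pow_pos hMpos n
  have hn : n + 1 ≤ 2 ^ lam := hlam
  have hl : lam + 1 ≤ 2 ^ lam := Nat.lt_two_pow_self
  have c12 : (S1.card + S2.card) * 8 ≤ M ^ n := by
    have d1 : (S1.card + S2.card) * N ≤ 2 ^ (lam * x + 3 * lam) * M ^ n := by
      calc (S1.card + S2.card) * N = S1.card * N + S2.card * N := by ring
        _ ≤ XX.card * ((lam + 1) * (n * M ^ n)) + XX.card * ((lam + 1) * (lam * (n * M ^ n))) :=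
            add_le_add c1 c2
        _ = XX.card * (lam + 1) * (lam + 1) * n * M ^ n := by ring
        _ ≤ (2 ^ lam) ^ x * 2 ^ lam * 2 ^ lam * 2 ^ lam * M ^ n := by
            have h1 : XX.card ≤ (2 ^ lam) ^ x := hXX.trans (Nat.pow_le_pow_left hn x)
            have h2 : n ≤ 2 ^ lam := by omega
            gcongr
        _ = 2 ^ (lam * x + 3 * lam) * M ^ n := by
            rw [← pow_mul, ← pow_add, ← pow_add, ← pow_add]
            congr 2
            ring
    have d2 : 2 ^ (lam * x + 3 * lam) * 8 ≤ N := by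
      show 2 ^ (lam * x + 3 * lam) * 2 ^ 3 ≤ 2 ^ (3 * ((lam + 1) * (x + 1)))
      rw [← pow_add]
      refine Nat.pow_le_pow_right (by norm_num) ?_
      nlinarith [Nat.zero_le (lam * x), Nat.zero_le x]
    have d3 : 0 < 2 ^ (lam * x + 3 * lam) := by positivity
    refine Nat.le_of_mul_le_mul_left ?_ d3
    calc 2 ^ (lam * x + 3 * lam) * ((S1.card + S2.card) * 8)
        = (S1.card + S2.card) * (2 ^ (lam * x + 3 * lam) * 8) := by ring
      _ ≤ (S1.card + S2.card) * N := Nat.mul_le_mul_left _ d2
      _ ≤ _ := d1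
  have hex : ∃ f : V → Fin M, f ∉ S1 ∪ S2 ∪ S3 := by
    by_contra hall
    push Not at hall
    have h1 : (Finset.univ : Finset (V → Fin M)) ⊆ S1 ∪ S2 ∪ S3 := fun f _ => hall f
    have h2 := Finset.card_le_card h1
    rw [Finset.card_univ, Fintype.card_fun, Fintype.card_fin] at h2
    have h3 := (Finset.card_union_le (S1 ∪ S2) S3)
    have h4 := (Finset.card_union_le S1 S2)
    have h5 : M ^ Fintype.card V = M ^ n := rfl
    omega
  obtain ⟨f, hf⟩ := hex
  rw [Finset.mem_union, Finset.mem_union] at hf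
  push Not at hf
  obtain ⟨⟨hf1, hf2⟩, hf3⟩ := hf
  have g1 : ∀ X : Finset V, X.card ≤ x → ∀ i, i < lam + 1 → Dom G (Zset lam i 0 f \ X) := by
    intro X hX i hi
    by_contra hc
    apply hf1
    simp only [S1, Finset.mem_biUnion, Finset.mem_filter, Finset.mem_univ, true_and,
      Finset.mem_range]
    exact ⟨X, Finset.mem_filter.2 ⟨Finset.mem_univ _, hX⟩, i, hi, hc⟩
  have g2 : ∀ X : Finset V, X.card ≤ x → ∀ i, i < lam + 1 → ∀ j, j < lam →
      ∀ D, Closed G (Zset lam i j f \ X) D → Conn G D →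
        ∃ c : Finset V, (c : Set V) ⊆ Zset lam i (j + 1) f \ X ∧
          Connector G (Zset lam i j f \ X) D c := by
    intro X hX i hi j hj D hD1 hD2
    by_contra hc
    apply hf2
    simp only [S2, Finset.mem_biUnion, Finset.mem_filter, Finset.mem_univ, true_and,
      Finset.mem_range]
    exact ⟨X, Finset.mem_filter.2 ⟨Finset.mem_univ _, hX⟩, i, hi, j, hj,
      dom_mono (Set.sdiff_subset_sdiff_left (zset_mono lam i (Nat.zero_le j) f)) (g1 X hX i hi),
      D, hD1, hD2, hc⟩
  refine ⟨f, fun i hi X hX => ⟨?_, ?_⟩, ?_⟩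
  · refine hZ V G lam (fun j => Zset lam i j f \ X) hlam hV (fun j => ?_) (g1 X hX i hi) ?_
    · exact Set.sdiff_subset_sdiff_left (zset_mono lam i (Nat.le_succ j) f)
    · intro j hj D hD1 hD2
      exact g2 X hX i hi j hj D hD1 hD2
  · exact dom_mono (Set.sdiff_subset_sdiff_left (zset_mono lam i (Nat.zero_le lam) f))
      (g1 X hX i hi)
  · by_contra hc
    apply hf3
    simp only [S3, Finset.mem_filter, Finset.mem_univ, true_and, P3]
    omega

end Pool.Agent.Work.MP_768e99_linear
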